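import Pool.Agent.K1H28.FB.Base

/-!
# Indicator functions suffice
-/

set_option autoImplicit false
set_option linter.unusedSectionVars false

open MeasureTheory Filter Topology Finset
open scoped ENNReal

namespace Pool.Agent.K1H28.FB

/-- the indicator function -/
noncomputable def ind {X : Type*} (A : Set X) : X → ℂ := A.indicator fun _ => 1

lemma ind_mem {X : Type*} {A : Set X} {x : X} (h : x ∈ A) : ind A x = 1 := by
  unfold ind; exact Set.indicator_of_mem h _

lemma ind_notMem {X : Type*} {A : Set X} {x : X} (h : x ∉ A) : ind A x = 0 := by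
  unfold ind; exact Set.indicator_of_notMem h _

lemma ind_meas {X : Type*} [MeasurableSpace X] {A : Set X} (hA : MeasurableSet A) : Measurable (ind A) :=
  measurable_const.indicator hA

lemma ind_norm {X : Type*} (A : Set X) (x : X) : ‖ind A x‖ ≤ 1 := by
  by_cases h : x ∈ A
  · rw [ind_mem h]; simp
  · rw [ind_notMem h]; simp

/-- the cell of a value -/
noncomputable def qq {X : Type*} (f : X → ℂ) (e : ℝ) (x : X) : ℤ × ℤ := (⌊(f x).re / e⌋, ⌊(f x).im / e⌋)

/-- the corner of a cell -/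
noncomputable def cf (e : ℝ) (a : ℤ × ℤ) : ℂ := ⟨a.1 * e, a.2 * e⟩

/-- the cells that are needed -/
noncomputable def bx (B e : ℝ) : Finset (ℤ × ℤ) := Icc ⌊-B / e⌋ ⌊B / e⌋ ×ˢ Icc ⌊-B / e⌋ ⌊B / e⌋

/-- the step function -/
noncomputable def stp {X : Type*} (f : X → ℂ) (B e : ℝ) (x : X) : ℂ :=
  ∑ a ∈ bx B e, cf e a * ind {y | qq f e y = a} x

lemma qq_meas {X : Type*} [MeasurableSpace X] {f : X → ℂ} (hf : Measurable f) (e : ℝ) (a : ℤ × ℤ) :
    MeasurableSet {y | qq f e y = a} := by
  have h1 : Measurable (qq f e) := by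
    unfold qq
    exact (Int.measurable_floor.comp ((Complex.measurable_re.comp hf).div_const e)).prodMk
      (Int.measurable_floor.comp ((Complex.measurable_im.comp hf).div_const e))
  exact h1 (measurableSet_singleton a)

lemma stp_eq {X : Type*} {f : X → ℂ} {e B : ℝ} (he : 0 < e) (hf : ∀ x, ‖f x‖ ≤ B) (x : X) :
    stp f B e x = cf e (qq f e x) := by
  unfold stp
  rw [Finset.sum_eq_single (qq f e x)]
  · have : ind {y | qq f e y = qq f e x} x = 1 := ind_mem rfl
    rw [this, mul_one]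
  · intro a _ ha
    have : ind {y | qq f e y = a} x = 0 := ind_notMem fun h => ha h.symm
    rw [this, mul_zero]
  · intro h
    exfalso
    apply h
    unfold bx qq
    rw [Finset.mem_product, Finset.mem_Icc, Finset.mem_Icc]
    have h1 := abs_le.1 ((Complex.abs_re_le_norm (f x)).trans (hf x))
    have h2 := abs_le.1 ((Complex.abs_im_le_norm (f x)).trans (hf x))
    exact ⟨⟨Int.floor_mono (div_le_div_of_nonneg_right h1.1 he.le),
      Int.floor_mono (div_le_div_of_nonneg_right h1.2 he.le)⟩,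
      ⟨Int.floor_mono (div_le_div_of_nonneg_right h2.1 he.le),
      Int.floor_mono (div_le_div_of_nonneg_right h2.2 he.le)⟩⟩

lemma fl_close {t e : ℝ} (he : 0 < e) : |t - ⌊t / e⌋ * e| ≤ e := by
  have h1 := Int.floor_le (t / e)
  have h2 := (Int.lt_floor_add_one (t / e)).le
  rw [le_div_iff₀ he] at h1
  rw [div_le_iff₀ he] at h2
  rw [abs_le]
  constructor <;> linarith

lemma stp_close {X : Type*} {f : X → ℂ} {e B : ℝ} (he : 0 < e) (hf : ∀ x, ‖f x‖ ≤ B) (x : X) :
    ‖f x - stp f B e x‖ ≤ 2 * e := by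
  rw [stp_eq he hf]
  refine (Complex.norm_le_abs_re_add_abs_im _).trans ?_
  rw [Complex.sub_re, Complex.sub_im]
  have h1 := fl_close (t := (f x).re) he
  have h2 := fl_close (t := (f x).im) he
  unfold cf qq
  simp only
  linarith

lemma bdd_version {X : Type*} [MeasurableSpace X] {μ : Measure X} {f : X → ℂ} (hf : MemLp f ⊤ μ) :
    ∃ f' : X → ℂ, Measurable f' ∧ (∃ B, ∀ x, ‖f' x‖ ≤ B) ∧ f =ᵐ[μ] f' := by
  classical
  have hm := hf.aestronglyMeasurable
  set B : ℝ := (eLpNorm f ⊤ μ).toReal with hB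
  have hb : ∀ᵐ x ∂μ, ‖f x‖ ≤ B := by
    have h1 : eLpNormEssSup f μ ≠ ⊤ := by
      have := hf.eLpNorm_ne_top
      rwa [eLpNorm_exponent_top] at this
    filter_upwards [ae_le_eLpNormEssSup (f := f) (μ := μ)] with x hx
    rw [hB, eLpNorm_exponent_top, ← toReal_enorm]
    exact ENNReal.toReal_mono h1 hx
  have hB0 : 0 ≤ B := ENNReal.toReal_nonneg
  have hmm : Measurable (hm.mk f) := hm.stronglyMeasurable_mk.measurable
  refine ⟨fun x => if ‖hm.mk f x‖ ≤ B then hm.mk f x else 0, ?_, ⟨B, fun x => ?_⟩, ?_⟩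
  · exact Measurable.ite (measurableSet_le hmm.norm measurable_const) hmm measurable_const
  · simp only
    split_ifs with h
    · exact h
    · simpa using hB0
  · filter_upwards [hb, hm.ae_eq_mk] with x h1 h2
    rw [← h2, if_pos h1]

section Main

variable {ι τ : Type} [SemilatticeSup ι] [Nonempty ι] [Countable τ]

theorem sets_suffice {w : ι → ℂ} {E : ι → Finset τ} (hw : ∀ N, ‖w N‖ * (E N).card ≤ 1) {X : Type}
    [MeasurableSpace X] {μ : Measure X} {m : ℕ} {φ : Fin m → τ → X → X}
    (hφ : ∀ j n, MeasurePreserving (φ j n) μ μ)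
    (H : ∀ A : Fin m → Set X, (∀ j, MeasurableSet (A j)) →
      ∀ᵐ x ∂μ, Cv (avg w E fun n => ∏ j, ind (A j) (φ j n x)))
    {f : Fin m → X → ℂ} (hf : ∀ j, MemLp (f j) ⊤ μ) :
    ∀ᵐ x ∂μ, Cv (avg w E fun n => ∏ j, f j (φ j n x)) := by
  classical
  choose f' hf' hB hff using fun j => bdd_version (hf j)
  choose B₀ hB₀ using hB
  set B : ℝ := 1 + ∑ j, |B₀ j| with hBd
  have hBsum : ∀ j, |B₀ j| ≤ ∑ j, |B₀ j| := fun j =>
    Finset.single_le_sum (f := fun j => |B₀ j|) (fun _ _ => abs_nonneg _) (Finset.mem_univ j)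
  have hBf : ∀ j x, ‖f' j x‖ ≤ B := fun j x =>
    (hB₀ j x).trans ((le_abs_self _).trans ((hBsum j).trans (by rw [hBd]; linarith)))
  have hB1 : 1 ≤ B := by
    have := Finset.sum_nonneg (s := univ) (f := fun j => |B₀ j|) fun _ _ => abs_nonneg _
    linarith
  have hall : ∀ᵐ x ∂μ, ∀ (k : ℕ) (a : Fin m → ℤ × ℤ), Cv (avg w E fun n =>
      ∏ j, ind {y | qq (f' j) (1 / ((k : ℝ) + 1)) y = a j} (φ j n x)) := by
    rw [ae_all_iff]; intro k
    rw [ae_all_iff]; intro a
    exact H _ fun j => qq_meas (hf' j) _ _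
  have hpt : ∀ᵐ x ∂μ, ∀ j n, f j (φ j n x) = f' j (φ j n x) := by
    rw [ae_all_iff]; intro j
    rw [ae_all_iff]; intro n
    exact (hφ j n).quasiMeasurePreserving.ae (hff j)
  filter_upwards [hall, hpt] with x hx hxe
  have e0 : (fun n => ∏ j, f j (φ j n x)) = fun n => ∏ j, f' j (φ j n x) := by
    funext n
    exact Finset.prod_congr rfl fun j _ => hxe j n
  rw [e0]
  refine cv_of_close fun ε hε => ?_
  set C : ℝ := (univ : Finset (Fin m)).card * (B + 2) ^ (univ : Finset (Fin m)).card with hC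
  have hC0 : 0 ≤ C := by positivity
  obtain ⟨k, hk⟩ := exists_nat_one_div_lt (show 0 < min 1 (ε / (2 * (C + 1))) by positivity)
  set e : ℝ := 1 / ((k : ℝ) + 1) with he
  have he0 : 0 < e := by positivity
  have he1 : e < 1 := hk.trans_le (min_le_left _ _)
  have he2 : e < ε / (2 * (C + 1)) := hk.trans_le (min_le_right _ _)
  refine ⟨avg w E fun n => ∏ j, stp (f' j) B e (φ j n x), ?_, fun N => ?_⟩
  · have e1 : (avg w E fun n => ∏ j, stp (f' j) B e (φ j n x)) = fun N =>
        ∑ a ∈ Fintype.piFinset (fun _ : Fin m => bx B e), (∏ j, cf e (a j)) *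
          avg w E (fun n => ∏ j, ind {y | qq (f' j) e y = a j} (φ j n x)) N := by
      funext N
      unfold avg stp
      have e2 : ∀ n, ∏ j, ∑ a ∈ bx B e, cf e a * ind {y | qq (f' j) e y = a} (φ j n x) =
          ∑ a ∈ Fintype.piFinset (fun _ : Fin m => bx B e), (∏ j, cf e (a j)) *
            ∏ j, ind {y | qq (f' j) e y = a j} (φ j n x) := by
        intro n
        rw [Finset.prod_univ_sum]
        exact Finset.sum_congr rfl fun a _ => Finset.prod_mul_distrib
      simp only [e2]
      rw [Finset.sum_comm, Finset.mul_sum]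
      refine Finset.sum_congr rfl fun a _ => ?_
      rw [← Finset.mul_sum]
      ring
    rw [e1]
    exact cv_sum _ fun a _ => cv_const_mul _ (hx k a)
  · refine avg_close hw hε.le (fun n => ?_) N
    have hsb : ∀ j y, ‖stp (f' j) B e y‖ ≤ B + 2 := by
      intro j y
      have h1 := stp_close he0 (hBf j) y
      have h2 := norm_le_norm_add_norm_sub' (stp (f' j) B e y) (f' j y)
      rw [norm_sub_rev] at h2
      have h3 := hBf j y
      linarith
    have hfb : ∀ j y, ‖f' j y‖ ≤ B + 2 := fun j y => (hBf j y).trans (by linarith)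
    refine (prod_close univ (a := fun j => f' j (φ j n x)) (b := fun j => stp (f' j) B e (φ j n x))
      (B := B + 2) (by linarith) (show 0 ≤ 2 * e by positivity) (fun j => hfb j _) (fun j => hsb j _)
      (fun j => stp_close he0 (hBf j) _)).trans ?_
    rw [lt_div_iff₀ (by positivity)] at he2
    nlinarith

end Main

end Pool.Agent.K1H28.FB
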