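import Pool.Agent.R291.QDErg4
import Pool.Agent.K1H28.FB.Sets

/-!
# Amplification of divergence for ergodic actions
-/

set_option autoImplicit false
set_option linter.unusedSectionVars false

open MeasureTheory Filter Topology Finset
open scoped ENNReal

namespace Pool.Agent.K1H28.FB

open Pool.Agent.R291.QD

section Abs

variable {G : Type} [Group G] [Countable G] {X : Type} [MeasurableSpace X] [StandardBorelSpace X]
  [MulAction G X] [MeasurableConstSMul G X]

lemma erg_pos {μ : Measure X} [IsProbabilityMeasure μ] (hμ : IsSystem G μ) {D : Set X}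
    (hD : MeasurableSet D) (h0 : μ D ≠ 0) :
    ∃ μ' : Measure X, IsSystem G μ' ∧ IsErgodicSystem G μ' ∧ μ' D ≠ 0 := by
  by_contra hc
  push Not at hc
  apply h0
  have h1 := erg_lintegral (G := G) μ (F := D.indicator fun _ => 1) (measurable_const.indicator hD)
  rw [lintegral_indicator hD, setLIntegral_const, one_mul] at h1
  rw [← h1]
  refine lintegral_eq_zero_of_ae_eq_zero ?_
  filter_upwards [erg_ergodic hμ, erg_isSystem hμ] with z h2 h3
  rw [lintegral_indicator hD, setLIntegral_const, one_mul]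
  exact hc (erg G μ z) h3 h2

omit [StandardBorelSpace X] in
lemma cover {μ : Measure X} [IsProbabilityMeasure μ] (he : IsErgodicSystem G μ) {D : Set X}
    (hD : MeasurableSet D) (h0 : μ D ≠ 0) {ε : ℝ≥0∞} (hε : 0 < ε) :
    ∃ (r : ℕ) (h : Fin (r + 1) → G), h 0 = 1 ∧ μ {x | ∀ i, h i • x ∉ D} < ε := by
  obtain ⟨e, hes⟩ := exists_surjective_nat G
  set U : Set X := ⋃ g : G, (fun x => g • x) ⁻¹' D with hU
  have hUm : MeasurableSet U := MeasurableSet.iUnion fun g => measurable_const_smul g hD
  have hUi : ∀ h : G, (fun x => h • x) ⁻¹' U = U := by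
    intro h
    ext x
    simp only [hU, Set.mem_preimage, Set.mem_iUnion]
    constructor
    · rintro ⟨g, hg⟩
      exact ⟨g * h, by rwa [mul_smul]⟩
    · rintro ⟨g, hg⟩
      exact ⟨g * h⁻¹, by rwa [mul_smul, inv_smul_smul]⟩
  have hU1 : μ Uᶜ = 0 := by
    rcases he U hUm hUi with h | h
    · exfalso
      apply h0
      refine measure_mono_null ?_ h
      intro x hx
      refine Set.mem_iUnion.2 ⟨1, ?_⟩
      rw [Set.mem_preimage, one_smul]
      exact hx
    · exact (prob_compl_eq_zero_iff hUm).2 h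
  set S : ℕ → Set X := fun r => {x | x ∉ D ∧ ∀ i < r, e i • x ∉ D} with hS
  have hSm : ∀ r, NullMeasurableSet (S r) μ := by
    intro r
    refine (hD.compl.inter ?_).nullMeasurableSet
    have e1 : {x | ∀ i < r, e i • x ∉ D} = ⋂ i : ℕ, ⋂ _ : i < r, (fun x => e i • x) ⁻¹' Dᶜ := by
      ext x
      simp only [Set.mem_ofPred_eq, Set.mem_iInter, Set.mem_preimage, Set.mem_compl_iff]
    change MeasurableSet {x | ∀ i < r, e i • x ∉ D}
    rw [e1]
    exact MeasurableSet.iInter fun i => MeasurableSet.iInter fun _ => measurable_const_smul (e i) hD.compl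
  have hanti : Antitone S := fun a b hab x hx => ⟨hx.1, fun i hi => hx.2 i (hi.trans_le hab)⟩
  have hint : μ (⋂ r, S r) = 0 := by
    refine measure_mono_null ?_ hU1
    intro x hx hxU
    obtain ⟨g, hg⟩ := Set.mem_iUnion.1 hxU
    obtain ⟨i, hi⟩ := hes g
    exact ((Set.mem_iInter.1 hx) (i + 1)).2 i (Nat.lt_succ_self i) (by rw [hi]; exact hg)
  have ht := tendsto_measure_iInter_atTop hSm hanti ⟨0, measure_ne_top _ _⟩
  rw [hint] at ht
  obtain ⟨r, hr⟩ := (ht.eventually (gt_mem_nhds hε)).exists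
  refine ⟨r, Fin.cons 1 fun i => e i, rfl, lt_of_le_of_lt (measure_mono ?_) hr⟩
  intro x hx
  refine ⟨?_, fun i hi => ?_⟩
  · have := hx 0
    rwa [Fin.cons_zero, one_smul] at this
  · have := hx (Fin.succ ⟨i, hi⟩)
    rwa [Fin.cons_succ] at this

end Abs

lemma exists_small {P : ℝ → Prop} (h : ∀ᵐ s ∂(volume : Measure ℝ), P s) {r : ℝ} (hr : 0 < r) :
    ∃ s : ℝ, 0 < s ∧ s < r ∧ P s := by
  have h1 : (volume : Measure ℝ) (Set.Ioo 0 r) ≠ 0 := by
    rw [Real.volume_Ioo, sub_zero]
    exact (ENNReal.ofReal_pos.2 hr).ne'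
  obtain ⟨s, hs, hP⟩ := ((frequently_ae_mem_iff.2 h1).and_eventually h).exists
  exact ⟨s, hs.1, hs.2, hP⟩

section Amp

variable {ι τ : Type} [SemilatticeSup ι] [Nonempty ι] [Countable ι]

lemma cv_meas {Y : Type*} [MeasurableSpace Y] {F : Y → ι → ℂ} (hF : ∀ N, Measurable fun y => F y N) :
    MeasurableSet {y | Cv (F y)} :=
  measurableSet_exists_tendsto (l := atTop) (f := fun N y => F y N) hF

lemma avg_expand (w : ι → ℂ) (E : ι → Finset τ) {K : ℕ} (a : Fin K → τ → ℂ) (z : ℝ) :
    (avg w E fun n => ∏ e : Fin K, (1 + ((z ^ 2 ^ (e : ℕ) : ℝ) : ℂ) * a e n)) =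
      fun N => ∑ S ∈ (univ : Finset (Fin K)).powerset, (z : ℂ) ^ sg S *
        avg w E (fun n => ∏ e ∈ S, a e n) N := by
  funext N
  unfold avg
  have e1 : ∀ n, ∏ e : Fin K, (1 + ((z ^ 2 ^ (e : ℕ) : ℝ) : ℂ) * a e n) =
      ∑ S ∈ (univ : Finset (Fin K)).powerset, (z : ℂ) ^ sg S * ∏ e ∈ S, a e n := by
    intro n
    rw [Finset.prod_one_add]
    refine Finset.sum_congr rfl fun S _ => ?_
    rw [Finset.prod_mul_distrib]
    congr 1
    unfold sg
    rw [← Finset.prod_pow_eq_pow_sum]
    exact Finset.prod_congr rfl fun e _ => by push_cast; rfl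
  simp only [e1]
  rw [Finset.sum_comm, Finset.mul_sum]
  refine Finset.sum_congr rfl fun S _ => ?_
  rw [← Finset.mul_sum]
  ring

lemma prod_block {r m : ℕ} (i : Fin r) (F : Fin r → Fin m → ℂ) :
    ∏ e ∈ (univ : Finset (Fin (r * m))).filter (fun e => e.divNat = i), F e.divNat e.modNat =
      ∏ j : Fin m, F i j := by
  symm
  refine Finset.prod_bij (fun j _ => finProdFinEquiv (i, j)) ?_ ?_ ?_ ?_
  · intro j _
    rw [Finset.mem_filter]
    refine ⟨Finset.mem_univ _, ?_⟩
    have := finProdFinEquiv.symm_apply_apply (i, j)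
    exact congrArg Prod.fst this
  · intro j _ j' _ h
    have := finProdFinEquiv.injective h
    exact (Prod.mk.inj this).2
  · intro e he
    rw [Finset.mem_filter] at he
    refine ⟨e.modNat, Finset.mem_univ _, ?_⟩
    have := finProdFinEquiv.apply_symm_apply e
    rw [← he.2]
    exact this
  · intro j _
    have := finProdFinEquiv.symm_apply_apply (i, j)
    have h1 : (finProdFinEquiv (i, j)).divNat = i := congrArg Prod.fst this
    have h2 : (finProdFinEquiv (i, j)).modNat = j := congrArg Prod.snd this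
    rw [h1, h2]

variable {G : Type} [Group G] [Countable G] {X : Type} [MeasurableSpace X] [StandardBorelSpace X]
  [MulAction G X] [MeasurableConstSMul G X]

theorem amp (w : ι → ℂ) (E : ι → Finset τ) {m : ℕ} (g : Fin m → τ → G) {A : Fin m → Set X}
    (hA : ∀ j, MeasurableSet (A j)) {μ : Measure X} [IsProbabilityMeasure μ] (hμ : IsSystem G μ)
    (h0 : ¬ ∀ᵐ x ∂μ, Cv (avg w E fun n => ∏ j, ind (A j) (g j n • x))) {ε : ℝ≥0∞} (hε : 0 < ε) {η : ℝ}
    (hη : 0 < η) :
    ∃ μ' : Measure X, IsSystem G μ' ∧ IsErgodicSystem G μ' ∧ ∃ (r : ℕ) (h : Fin (r + 1) → G), h 0 = 1 ∧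
      ∃ δ : Fin ((r + 1) * m) → ℝ, (∀ e, 0 < δ e ∧ δ e < η) ∧
        μ' {x | Cv (avg w E fun n => ∏ e : Fin ((r + 1) * m), (1 + (δ e : ℂ) *
          ind {y | h e.divNat • y ∈ A e.modNat}
            (((h e.divNat)⁻¹ * g e.modNat n * h e.divNat) • x)))} < ε := by
  set D : Set X := {x | ¬ Cv (avg w E fun n => ∏ j, ind (A j) (g j n • x))} with hD
  have ham : ∀ N, Measurable fun x : X => avg w E (fun n => ∏ j, ind (A j) (g j n • x)) N := by
    intro N
    unfold avg
    refine Measurable.const_mul (Finset.measurable_fun_sum _ fun n _ => ?_) _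
    exact Finset.measurable_fun_prod _ fun j _ => (ind_meas (hA j)).comp (measurable_const_smul _)
  have hDm : MeasurableSet D := (cv_meas ham).compl
  have hD0 : μ D ≠ 0 := by
    intro h
    apply h0
    rw [ae_iff]
    exact h
  obtain ⟨μ', hs, he, hD'⟩ := erg_pos hμ hDm hD0
  have hp : IsProbabilityMeasure μ' := hs.isProb
  obtain ⟨r, h, hh, hr⟩ := cover he hDm hD' hε
  refine ⟨μ', hs, he, r, h, hh, ?_⟩
  set K : ℕ := (r + 1) * m with hK
  set a : Fin K → τ → X → ℂ := fun e n x => ind (A e.modNat) (g e.modNat n • h e.divNat • x) with ha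
  have ham' : ∀ (S : Finset (Fin K)) N, Measurable fun x => avg w E (fun n => ∏ e ∈ S, a e n x) N := by
    intro S N
    unfold avg
    refine Measurable.const_mul (Finset.measurable_fun_sum _ fun n _ => ?_) _
    exact Finset.measurable_fun_prod _ fun e _ => (ind_meas (hA _)).comp
      ((measurable_const_smul _).comp (measurable_const_smul _))
  set P : ℝ → X → ι → ℂ := fun z x N => ∑ S ∈ (univ : Finset (Fin K)).powerset, (z : ℂ) ^ sg S *
    avg w E (fun n => ∏ e ∈ S, a e n x) N with hP
  have hfin : ∀ x, (∃ i, h i • x ∈ D) → {z : ℝ | Cv (P z x)}.Finite := by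
    rintro x ⟨i, hi⟩
    refine poly_finite (fun S N => avg w E (fun n => ∏ e ∈ S, a e n x) N)
      (S₀ := (univ : Finset (Fin K)).filter fun e => e.divNat = i) ?_
    intro hc
    apply hi
    have e1 : (fun N => avg w E (fun n => ∏ e ∈ (univ : Finset (Fin K)).filter (fun e => e.divNat = i),
        a e n x) N) = avg w E fun n => ∏ j, ind (A j) (g j n • h i • x) := by
      funext N
      congr 1
      funext n
      exact prod_block i (fun i j => ind (A j) (g j n • h i • x))
    rw [e1] at hc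
    exact hc
  have hae : ∀ᵐ z ∂(volume : Measure ℝ), ∀ᵐ x ∂μ', (∃ i, h i • x ∈ D) → ¬ Cv (P z x) := by
    set B : Set (ℝ × X) := {q | (∃ i, h i • q.2 ∈ D) ∧ Cv (P q.1 q.2)} with hB
    have hBm : MeasurableSet B := by
      refine MeasurableSet.inter ?_ ?_
      · have e1 : {q : ℝ × X | ∃ i, h i • q.2 ∈ D} = ⋃ i, (fun q : ℝ × X => h i • q.2) ⁻¹' D := by
          ext q
          simp only [Set.mem_ofPred_eq, Set.mem_iUnion, Set.mem_preimage]
        change MeasurableSet {q : ℝ × X | ∃ i, h i • q.2 ∈ D}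
        rw [e1]
        exact MeasurableSet.iUnion fun i => ((measurable_const_smul (h i)).comp measurable_snd) hDm
      · refine cv_meas (F := fun q : ℝ × X => P q.1 q.2) fun N => ?_
        refine Finset.measurable_fun_sum _ fun S _ => ?_
        exact ((Complex.measurable_ofReal.comp measurable_fst).pow_const _).mul
          ((ham' S N).comp measurable_snd)
    have hB0 : (volume.prod μ') B = 0 := by
      rw [Measure.prod_apply_symm hBm]
      refine lintegral_eq_zero_of_ae_eq_zero (Eventually.of_forall fun x => ?_)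
      change volume ((fun s : ℝ => (s, x)) ⁻¹' B) = 0
      by_cases hx : ∃ i, h i • x ∈ D
      · exact ((hfin x hx).subset fun s hs => hs.2).measure_zero _
      · have : (fun s : ℝ => (s, x)) ⁻¹' B = ∅ := by
          ext s
          simp only [hB, Set.mem_preimage, Set.mem_ofPred_eq, Set.mem_empty_iff_false, iff_false]
          exact fun h => hx h.1
        rw [this, measure_empty]
    have h1 : ∀ᵐ q ∂(volume.prod μ'), q ∉ B := by
      rw [ae_iff]
      simpa using hB0
    filter_upwards [Measure.ae_ae_of_ae_prod h1] with z hz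
    filter_upwards [hz] with x hx hd hc
    exact hx ⟨hd, hc⟩
  obtain ⟨z, hz0, hz1, hz⟩ := exists_small hae (r := min 1 η) (lt_min one_pos hη)
  refine ⟨fun e => z ^ 2 ^ (e : ℕ), fun e => ⟨pow_pos hz0 _, ?_⟩, lt_of_le_of_lt (measure_mono_ae ?_) hr⟩
  · have hz2 : z ≤ 1 := (hz1.trans_le (min_le_left _ _)).le
    have h2 : z ^ 2 ^ (e : ℕ) ≤ z ^ 1 := pow_le_pow_of_le_one hz0.le hz2 Nat.one_le_two_pow
    rw [pow_one] at h2
    exact h2.trans_lt (hz1.trans_le (min_le_right _ _))
  · filter_upwards [hz] with x hx hc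
    intro i hi
    refine hx ⟨i, hi⟩ ?_
    have e1 : (avg w E fun n => ∏ e : Fin K, (1 + ((z ^ 2 ^ (e : ℕ) : ℝ) : ℂ) *
        ind {y | h e.divNat • y ∈ A e.modNat} (((h e.divNat)⁻¹ * g e.modNat n * h e.divNat) • x))) =
        P z x := by
      rw [hP]
      simp only
      rw [← avg_expand]
      congr 1
      funext n
      refine Finset.prod_congr rfl fun e _ => ?_
      congr 2
      have e2 : h e.divNat • ((h e.divNat)⁻¹ * g e.modNat n * h e.divNat) • x =
          g e.modNat n • h e.divNat • x := by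
        rw [← mul_smul, ← mul_smul, ← mul_assoc, ← mul_assoc, mul_inv_cancel, one_mul]
      rw [ha]
      simp only
      rw [← e2]
      rfl
    rw [← e1]
    exact hc

end Amp

end Pool.Agent.K1H28.FB
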