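import Mathlib

/-!
# Convergence of averages along a directed set, polynomials with divergent coefficients
-/

set_option autoImplicit false
set_option linter.unusedSectionVars false

open MeasureTheory Filter Topology Finset

namespace Pool.Agent.K1H28.FB

section Cv

variable {ι : Type} [SemilatticeSup ι] [Nonempty ι]

/-- the net converges -/
def Cv (a : ι → ℂ) : Prop := ∃ L : ℂ, Tendsto a atTop (𝓝 L)

lemma cv_add {a b : ι → ℂ} (ha : Cv a) (hb : Cv b) : Cv (fun N => a N + b N) := by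
  obtain ⟨L, hL⟩ := ha
  obtain ⟨M, hM⟩ := hb
  exact ⟨L + M, hL.add hM⟩

lemma cv_const_mul {a : ι → ℂ} (c : ℂ) (ha : Cv a) : Cv (fun N => c * a N) := by
  obtain ⟨L, hL⟩ := ha
  exact ⟨c * L, hL.const_mul c⟩

lemma cv_sum {κ : Type*} (s : Finset κ) {a : κ → ι → ℂ} (h : ∀ i ∈ s, Cv (a i)) :
    Cv (fun N => ∑ i ∈ s, a i N) := by
  classical
  induction s using Finset.induction_on with
  | empty => exact ⟨0, by simp⟩
  | insert i s hi ih =>
    simp only [Finset.sum_insert hi]
    exact cv_add (h i (Finset.mem_insert_self _ _)) (ih fun j hj => h j (Finset.mem_insert_of_mem hj))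

lemma cv_of_close {a : ι → ℂ} (h : ∀ ε : ℝ, 0 < ε → ∃ b : ι → ℂ, Cv b ∧ ∀ N, ‖a N - b N‖ ≤ ε) :
    Cv a := by
  refine cauchySeq_tendsto_of_complete (Metric.cauchySeq_iff.2 fun ε hε => ?_)
  obtain ⟨b, ⟨L, hL⟩, hab⟩ := h (ε / 4) (by positivity)
  obtain ⟨N, hN⟩ := Metric.cauchySeq_iff.1 hL.cauchySeq (ε / 4) (by positivity)
  refine ⟨N, fun m hm n hn => ?_⟩
  have h1 := hN m hm n hn
  rw [dist_eq_norm] at h1 ⊢
  have e : a m - a n = (a m - b m) + (b m - b n) + (b n - a n) := by ring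
  rw [e]
  have h2 := hab m
  have h3 := hab n
  rw [norm_sub_rev] at h3
  have h4 := norm_add_le ((a m - b m) + (b m - b n)) (b n - a n)
  have h5 := norm_add_le (a m - b m) (b m - b n)
  linarith

end Cv

section Poly

open Polynomial

variable {ι : Type} [SemilatticeSup ι] [Nonempty ι]

lemma coeff_cv {D : ℕ} {p : ι → ℂ[X]} (hdeg : ∀ N, (p N).degree < D) {S : Finset ℝ} (hS : S.card = D)
    (h : ∀ s ∈ S, Cv (fun N => (p N).eval (s : ℂ))) (j : ℕ) : Cv (fun N => (p N).coeff j) := by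
  classical
  have hinj : Set.InjOn (fun s : ℝ => (s : ℂ)) (S : Set ℝ) := fun a _ b _ hab => Complex.ofReal_injective hab
  have key : ∀ N, (p N).coeff j =
      ∑ s ∈ S, (Lagrange.basis S (fun s : ℝ => (s : ℂ)) s).coeff j * (p N).eval (s : ℂ) := by
    intro N
    have h1 := Lagrange.eq_interpolate_of_eval_eq (s := S) (v := fun s : ℝ => (s : ℂ)) (f := p N)
      (fun s => (p N).eval (s : ℂ)) hinj (by rw [hS]; exact hdeg N) (fun i _ => rfl)
    conv_lhs => rw [h1]
    rw [Lagrange.interpolate_apply, finsetSum_coeff]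
    refine Finset.sum_congr rfl fun s _ => ?_
    rw [coeff_C_mul, mul_comm]
  have h3 : (fun N => (p N).coeff j) = fun N =>
      ∑ s ∈ S, (Lagrange.basis S (fun s : ℝ => (s : ℂ)) s).coeff j * (p N).eval (s : ℂ) := funext key
  rw [h3]
  exact cv_sum S fun s hs => cv_const_mul _ (h s hs)

/-- the exponent of a set of indices -/
def sg {K : ℕ} (S : Finset (Fin K)) : ℕ := ∑ e ∈ S, 2 ^ (e : ℕ)

lemma sg_injective {K : ℕ} : Function.Injective (sg (K := K)) := by
  intro S T h
  have e : ∀ S : Finset (Fin K), sg S = ∑ i ∈ S.map Fin.valEmbedding, 2 ^ i := by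
    intro S
    rw [Finset.sum_map]
    rfl
  rw [e S, e T] at h
  have := Finset.geomSum_injective (le_refl 2) h
  exact Finset.map_injective _ this

/-- If one of the coefficients diverges then the polynomials converge for finitely many values of the
variable only. -/
lemma poly_finite {K : ℕ} (c : Finset (Fin K) → ι → ℂ) {S₀ : Finset (Fin K)} (h : ¬ Cv (c S₀)) :
    {z : ℝ | Cv (fun N => ∑ S ∈ (univ : Finset (Fin K)).powerset, (z : ℂ) ^ sg S * c S N)}.Finite := by
  classical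
  set D : ℕ := ∑ S ∈ (univ : Finset (Fin K)).powerset, sg S + 1 with hD
  set p : ι → ℂ[X] := fun N => ∑ S ∈ (univ : Finset (Fin K)).powerset, C (c S N) * X ^ sg S with hp
  have hdeg : ∀ N, (p N).degree < D := by
    intro N
    refine (degree_sum_le _ _).trans_lt ?_
    rw [Finset.sup_lt_iff (by exact_mod_cast WithBot.bot_lt_coe D)]
    intro S hS
    refine (degree_C_mul_X_pow_le _ _).trans_lt ?_
    have : sg S < D := Nat.lt_succ_of_le (Finset.single_le_sum (f := fun S => sg S)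
      (fun _ _ => Nat.zero_le _) hS)
    exact_mod_cast this
  have hev : ∀ (z : ℝ) (N : ι), (p N).eval (z : ℂ) =
      ∑ S ∈ (univ : Finset (Fin K)).powerset, (z : ℂ) ^ sg S * c S N := by
    intro z N
    rw [hp, eval_finsetSum]
    refine Finset.sum_congr rfl fun S _ => ?_
    rw [eval_mul, eval_C, eval_pow, eval_X, mul_comm]
  have hco : ∀ N, (p N).coeff (sg S₀) = c S₀ N := by
    intro N
    rw [hp, finsetSum_coeff, Finset.sum_eq_single S₀]
    · rw [coeff_C_mul, coeff_X_pow, if_pos rfl, mul_one]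
    · intro S _ hS
      rw [coeff_C_mul, coeff_X_pow, if_neg (fun h' => hS (sg_injective h'.symm)), mul_zero]
    · intro h'
      exact absurd (Finset.mem_powerset.2 (Finset.subset_univ _)) h'
  by_contra hinf
  obtain ⟨S, hS, hc⟩ := Set.Infinite.exists_subset_card_eq hinf D
  apply h
  have h1 := coeff_cv hdeg hc (fun s hs => by
    have h2 := hS hs
    simp only [Set.mem_ofPred_eq] at h2
    simp only [hev]
    exact h2) (sg S₀)
  simp only [hco] at h1
  exact h1

end Poly

section Avg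

variable {ι τ : Type} [SemilatticeSup ι] [Nonempty ι]

/-- the averages with weights `w N` over the finite sets `E N` -/
noncomputable def avg (w : ι → ℂ) (E : ι → Finset τ) (a : τ → ℂ) (N : ι) : ℂ := w N * ∑ n ∈ E N, a n

lemma avg_close {w : ι → ℂ} {E : ι → Finset τ} (hw : ∀ N, ‖w N‖ * (E N).card ≤ 1) {a b : τ → ℂ} {ε : ℝ}
    (hε : 0 ≤ ε) (h : ∀ n, ‖a n - b n‖ ≤ ε) (N : ι) : ‖avg w E a N - avg w E b N‖ ≤ ε := by
  unfold avg
  rw [← mul_sub, ← Finset.sum_sub_distrib, norm_mul]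
  have h1 : ‖∑ n ∈ E N, (a n - b n)‖ ≤ (E N).card * ε := by
    refine (norm_sum_le _ _).trans ?_
    refine (Finset.sum_le_card_nsmul _ _ ε fun n _ => h n).trans ?_
    rw [nsmul_eq_mul]
  calc ‖w N‖ * ‖∑ n ∈ E N, (a n - b n)‖ ≤ ‖w N‖ * ((E N).card * ε) :=
        mul_le_mul_of_nonneg_left h1 (norm_nonneg _)
    _ = (‖w N‖ * (E N).card) * ε := by ring
    _ ≤ 1 * ε := mul_le_mul_of_nonneg_right (hw N) hε
    _ = ε := one_mul _

lemma prod_close {κ : Type*} (s : Finset κ) {a b : κ → ℂ} {B ε : ℝ} (hB : 1 ≤ B) (hε : 0 ≤ ε)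
    (ha : ∀ j, ‖a j‖ ≤ B) (hb : ∀ j, ‖b j‖ ≤ B) (hab : ∀ j, ‖a j - b j‖ ≤ ε) :
    ‖∏ j ∈ s, a j - ∏ j ∈ s, b j‖ ≤ s.card * B ^ s.card * ε := by
  classical
  have hB0 : 0 ≤ B := by linarith
  induction s using Finset.induction_on with
  | empty => simp
  | insert i s hi ih =>
    rw [Finset.prod_insert hi, Finset.prod_insert hi, Finset.card_insert_of_notMem hi]
    have e : a i * ∏ j ∈ s, a j - b i * ∏ j ∈ s, b j =
        (a i - b i) * ∏ j ∈ s, a j + b i * (∏ j ∈ s, a j - ∏ j ∈ s, b j) := by ring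
    rw [e]
    have h1 : ‖∏ j ∈ s, a j‖ ≤ B ^ s.card := by
      rw [norm_prod]
      refine (Finset.prod_le_prod (fun j _ => norm_nonneg _) (fun j _ => ha j)).trans (le_of_eq ?_)
      rw [Finset.prod_const]
    have h2 : ‖(a i - b i) * ∏ j ∈ s, a j‖ ≤ ε * B ^ s.card := by
      rw [norm_mul]
      exact mul_le_mul (hab i) h1 (norm_nonneg _) hε
    have h3 : ‖b i * (∏ j ∈ s, a j - ∏ j ∈ s, b j)‖ ≤ B * (s.card * B ^ s.card * ε) := by
      rw [norm_mul]
      exact mul_le_mul (hb i) ih (norm_nonneg _) hB0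
    refine (norm_add_le _ _).trans ((add_le_add h2 h3).trans ?_)
    push_cast
    have h4 : B ^ s.card ≤ B ^ (s.card + 1) := pow_le_pow_right₀ hB (Nat.le_succ _)
    have h5 : ε * B ^ s.card ≤ ε * B ^ (s.card + 1) := mul_le_mul_of_nonneg_left h4 hε
    calc ε * B ^ s.card + B * (s.card * B ^ s.card * ε) ≤
          ε * B ^ (s.card + 1) + B * (s.card * B ^ s.card * ε) := by linarith
      _ = (s.card + 1) * B ^ (s.card + 1) * ε := by ring

end Avg

end Pool.Agent.K1H28.FB
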