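import Mathlib

/-!
# Products of powers of generators
-/

set_option autoImplicit false

namespace Pool.Agent.K1H28.FB

section Words

variable {G H : Type*} [Group G] [Group H]

/-- the ordered product of the powers of the generators -/
def wd {d : ℕ} (t : Fin d → G) (a : Fin d → ℤ) : G := (List.ofFn fun i => t i ^ a i).prod

lemma wd_map {d : ℕ} (φ : G →* H) (t : Fin d → G) (a : Fin d → ℤ) :
    φ (wd t a) = wd (fun i => φ (t i)) a := by
  unfold wd
  rw [map_list_prod, List.map_ofFn]
  congr 2
  funext i
  exact map_zpow φ _ _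

lemma wd_conj {d : ℕ} (h : G) (t : Fin d → G) (a : Fin d → ℤ) :
    wd (fun i => h⁻¹ * t i * h) a = h⁻¹ * wd t a * h := by
  have h1 := wd_map (MulAut.conj h⁻¹).toMonoidHom t a
  have e : ∀ x : G, (MulAut.conj h⁻¹).toMonoidHom x = h⁻¹ * x * h := by
    intro x
    change h⁻¹ * x * h⁻¹⁻¹ = h⁻¹ * x * h
    rw [inv_inv]
  simp only [e] at h1
  exact h1.symm

lemma prod_single {n : ℕ} (f : Fin n → G) (i₀ : Fin n) (hf : ∀ i, i ≠ i₀ → f i = 1) :
    (List.ofFn f).prod = f i₀ := by
  induction n with
  | zero => exact i₀.elim0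
  | succ n ih =>
    rw [List.ofFn_succ, List.prod_cons]
    rcases Fin.eq_zero_or_eq_succ i₀ with h | ⟨j, h⟩
    · have h1 : (List.ofFn fun i : Fin n => f i.succ) = List.replicate n 1 := by
        rw [← List.ofFn_const]
        congr 1
        funext i
        exact hf _ (by rw [h]; exact Fin.succ_ne_zero i)
      rw [h1, List.prod_replicate, one_pow, mul_one, h]
    · rw [hf 0 (by rw [h]; exact (Fin.succ_ne_zero j).symm), one_mul]
      have h2 := ih (fun i => f i.succ) j fun i hi => hf _ (by
        rw [h]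
        exact fun h' => hi (Fin.succ_injective _ h'))
      rw [h2, h]

lemma wd_block {r d : ℕ} (t : Fin r → Fin d → G) (i₀ : Fin r) (a : Fin d → ℤ) :
    wd (fun e : Fin (r * d) => t e.divNat e.modNat)
      (fun e => if e.divNat = i₀ then a e.modNat else 0) = wd (t i₀) a := by
  unfold wd
  rw [List.ofFn_mul, List.prod_flatten, List.map_ofFn]
  have hdiv : ∀ (i : Fin r) (j : Fin d) (hlt : (i : ℕ) * d + j < r * d),
      (⟨(i : ℕ) * d + j, hlt⟩ : Fin (r * d)).divNat = i := by
    intro i j hlt
    apply Fin.ext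
    have hd : 0 < d := lt_of_le_of_lt (Nat.zero_le _) j.2
    change ((i : ℕ) * d + j) / d = i
    rw [mul_comm, Nat.mul_add_div hd, Nat.div_eq_of_lt j.2, add_zero]
  have hmod : ∀ (i : Fin r) (j : Fin d) (hlt : (i : ℕ) * d + j < r * d),
      (⟨(i : ℕ) * d + j, hlt⟩ : Fin (r * d)).modNat = j := by
    intro i j hlt
    apply Fin.ext
    change ((i : ℕ) * d + j) % d = j
    rw [mul_comm, Nat.mul_add_mod, Nat.mod_eq_of_lt j.2]
  rw [prod_single _ i₀]
  · simp only [Function.comp_apply, hdiv, hmod, if_true]
  · intro i hi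
    simp only [Function.comp_apply, hdiv, hmod, if_neg hi, zpow_zero]
    rw [List.ofFn_const, List.prod_replicate, one_pow]

end Words

/-- a finitely generated group is countable -/
lemma closure_countable {G : Type*} [Group G] {d : ℕ} (t : Fin d → G) :
    Countable (Subgroup.closure (Set.range t)) := by
  have h1 : Countable (FreeGroup (Fin d)) := by
    unfold FreeGroup
    infer_instance
  rw [← FreeGroup.range_lift_eq_closure]
  exact (FreeGroup.lift t).rangeRestrict_surjective.countable

end Pool.Agent.K1H28.FB
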