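import Pool.Agent.K1H28.FB.Amp
import Pool.Agent.K1H28.FB.Words

/-!
# Transfer to a symbolic system and the class level zero-one law
-/

set_option autoImplicit false
set_option linter.unusedSectionVars false

open MeasureTheory Filter Topology Finset
open scoped ENNReal

namespace Pool.Agent.K1H28.FB

open Pool.Agent.R291.QD

/-- words on a group -/
def Sym (G : Type) (m : ℕ) : Type := G → Fin m → Bool

instance (G : Type) (m : ℕ) : MeasurableSpace (Sym G m) := inferInstanceAs (MeasurableSpace (G → Fin m → Bool))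

instance (G : Type) [Countable G] (m : ℕ) : StandardBorelSpace (Sym G m) :=
  inferInstanceAs (StandardBorelSpace (G → Fin m → Bool))

instance (G : Type) [Group G] (m : ℕ) : MulAction G (Sym G m) where
  smul h w := fun g => w (g * h)
  one_smul w := by
    funext g
    change w (g * 1) = w g
    rw [mul_one]
  mul_smul h h' w := by
    funext g
    change w (g * (h * h')) = w (g * h * h')
    rw [mul_assoc]

lemma sym_smul {G : Type} [Group G] {m : ℕ} (h : G) (w : Sym G m) (g : G) : (h • w) g = w (g * h) := rfl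

instance (G : Type) [Group G] (m : ℕ) : MeasurableConstSMul G (Sym G m) where
  measurable_const_smul h := by
    refine measurable_pi_lambda _ fun g => ?_
    exact (measurable_pi_apply (g * h) : Measurable fun w : G → Fin m → Bool => w (g * h))

/-- a measure preserving invertible map -/
def IsMp {X : Type*} [MeasurableSpace X] (μ : Measure X) (σ : Equiv.Perm X) : Prop :=
  Measurable ⇑σ.symm ∧ MeasurePreserving (⇑σ) μ μ

lemma isMp_inv {X : Type*} [MeasurableSpace X] {μ : Measure X} {σ : Equiv.Perm X} (h : IsMp μ σ) :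
    IsMp μ σ⁻¹ := by
  let e : X ≃ᵐ X := ⟨σ, h.2.measurable, h.1⟩
  have h1 : MeasurePreserving e μ μ := h.2
  exact ⟨h.2.measurable, h1.symm e⟩

lemma isMp_mul {X : Type*} [MeasurableSpace X] {μ : Measure X} {σ σ' : Equiv.Perm X} (h : IsMp μ σ)
    (h' : IsMp μ σ') : IsMp μ (σ * σ') :=
  ⟨h'.1.comp h.1, h.2.comp h'.2⟩

lemma isMp_closure {X : Type*} [MeasurableSpace X] {μ : Measure X} {d : ℕ} {T : Fin d → Equiv.Perm X}
    (hT : ∀ i, IsMp μ (T i)) {σ : Equiv.Perm X} (hσ : σ ∈ Subgroup.closure (Set.range T)) : IsMp μ σ := by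
  induction hσ using Subgroup.closure_induction with
  | mem x hx =>
    obtain ⟨i, rfl⟩ := hx
    exact hT i
  | one => exact ⟨measurable_id, MeasurePreserving.id μ⟩
  | mul x y _ _ hx hy => exact isMp_mul hx hy
  | inv x _ hx => exact isMp_inv hx

variable {ι τ : Type} [SemilatticeSup ι] [Nonempty ι] [Countable ι]

/-- Divergence with positive probability for some sets gives divergence with probability close to one for an
ergodic system whose group is, up to isomorphism, a quotient of the original one. -/
theorem transfer (w : ι → ℂ) (E : ι → Finset τ) {X : Type} [MeasurableSpace X] {μ : Measure X}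
    [IsProbabilityMeasure μ] {d m : ℕ} {T : Fin d → Equiv.Perm X} (hT : ∀ i, IsMp μ (T i)) {k : ℕ}
    (hk : (Subgroup.closure (Set.range T)).lowerCentralSeries k = ⊥) (p : Fin d → Fin m → τ → ℤ)
    {A : Fin m → Set X} (hA : ∀ j, MeasurableSet (A j))
    (h0 : ¬ ∀ᵐ x ∂μ, Cv (avg w E fun n => ∏ j, ind (A j) (wd T (fun i => p i j n) x)))
    {ε : ℝ≥0∞} (hε : 0 < ε) {η : ℝ} (hη : 0 < η) :
    ∃ (X' : Type) (_ : MeasurableSpace X') (_ : StandardBorelSpace X') (μ' : Measure X')
      (_ : IsProbabilityMeasure μ') (r : ℕ) (T' : Fin ((r + 1) * d) → Equiv.Perm X'),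
      (∀ i, IsMp μ' (T' i)) ∧ (Subgroup.closure (Set.range T')).lowerCentralSeries k = ⊥ ∧
      (∀ s : Set X', MeasurableSet s → (∀ i, T' i ⁻¹' s = s) → μ' s = 0 ∨ μ' s = 1) ∧
      ∃ (A' : Fin ((r + 1) * m) → Set X') (δ : Fin ((r + 1) * m) → ℝ), (∀ j, MeasurableSet (A' j)) ∧
        (∀ j, 0 < δ j ∧ δ j < η) ∧
        μ' {x | Cv (avg w E fun n => ∏ j, (1 + (δ j : ℂ) * ind (A' j)
          (wd T' (fun i => if i.divNat = j.divNat then p i.modNat j.modNat n else 0) x)))} < ε := by
  classical
  set S : Subgroup (Equiv.Perm X) := Subgroup.closure (Set.range T) with hS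
  have hcount : Countable S := closure_countable T
  let t : Fin d → S := fun i => ⟨T i, Subgroup.subset_closure ⟨i, rfl⟩⟩
  let g : Fin m → τ → S := fun j n => wd t fun i => p i j n
  have hg : ∀ j n, ((g j n : S) : Equiv.Perm X) = wd T (fun i => p i j n) := fun j n =>
    wd_map S.subtype t _
  -- the names
  let Φ : X → Sym S m := fun x g j => decide ((g : Equiv.Perm X) x ∈ A j)
  have hΦm : Measurable Φ := by
    refine measurable_pi_lambda _ fun g => measurable_pi_lambda _ fun j => ?_
    refine measurable_to_bool ?_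
    have e : (fun x => Φ x g j) ⁻¹' {true} = (g : Equiv.Perm X) ⁻¹' A j := by
      ext x
      change decide ((g : Equiv.Perm X) x ∈ A j) = true ↔ (g : Equiv.Perm X) x ∈ A j
      exact decide_eq_true_iff
    rw [e]
    exact (isMp_closure hT g.2).2.measurable (hA j)
  have hΦs : ∀ (h : S) (x : X), h • Φ x = Φ ((h : Equiv.Perm X) x) := by
    intro h x
    funext g j
    rw [sym_smul]
    change decide (((g * h : S) : Equiv.Perm X) x ∈ A j) = decide ((g : Equiv.Perm X) ((h : Equiv.Perm X) x) ∈ A j)
    rfl
  set ν : Measure (Sym S m) := μ.map Φ with hν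
  have hνp : IsProbabilityMeasure ν := Measure.isProbabilityMeasure_map hΦm.aemeasurable
  have hsys : IsSystem S ν := by
    refine ⟨hνp, fun h => ?_⟩
    have hmp := (isMp_closure hT h.2).2
    rw [hν, Measure.map_map (measurable_const_smul h) hΦm]
    have e : (fun w : Sym S m => h • w) ∘ Φ = Φ ∘ ⇑(h : Equiv.Perm X) := by
      funext x
      exact hΦs h x
    rw [e, ← Measure.map_map hΦm hmp.measurable, hmp.map_eq]
  set B : Fin m → Set (Sym S m) := fun j => {w | w 1 j = true} with hB
  have hBm : ∀ j, MeasurableSet (B j) := by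
    intro j
    have h1 : Measurable fun w : Sym S m => w 1 j :=
      (measurable_pi_apply j).comp (measurable_pi_apply (1 : S) : Measurable fun w : S → Fin m → Bool => w 1)
    exact h1 (measurableSet_singleton true)
  have hBi : ∀ (j : Fin m) (n : τ) (x : X), ind (B j) (g j n • Φ x) = ind (A j) (wd T (fun i => p i j n) x) := by
    intro j n x
    rw [hΦs, hg]
    have e : Φ (wd T (fun i => p i j n) x) ∈ B j ↔ wd T (fun i => p i j n) x ∈ A j := by
      change decide (((1 : S) : Equiv.Perm X) (wd T (fun i => p i j n) x) ∈ A j) = true ↔ _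
      rw [decide_eq_true_iff]
      rfl
    by_cases h : wd T (fun i => p i j n) x ∈ A j
    · rw [ind_mem h, ind_mem (e.2 h)]
    · rw [ind_notMem h, ind_notMem fun h' => h (e.1 h')]
  have hfail : ¬ ∀ᵐ y ∂ν, Cv (avg w E fun n => ∏ j, ind (B j) (g j n • y)) := by
    intro hc
    apply h0
    have ham : ∀ N, Measurable fun y : Sym S m => avg w E (fun n => ∏ j, ind (B j) (g j n • y)) N := by
      intro N
      unfold avg
      refine Measurable.const_mul (Finset.measurable_fun_sum _ fun n _ => ?_) _
      exact Finset.measurable_fun_prod _ fun j _ => (ind_meas (hBm j)).comp (measurable_const_smul _)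
    rw [hν] at hc
    have h1 := (ae_map_iff (p := fun y => Cv (avg w E fun n => ∏ j, ind (B j) (g j n • y)))
      hΦm.aemeasurable (cv_meas ham)).1 hc
    filter_upwards [h1] with x hx
    simp only [hBi] at hx
    exact hx
  obtain ⟨μ', hs', he', r, h, hh, δ, hδ, hlt⟩ := amp w E g hBm hsys hfail hε hη
  have hp' : IsProbabilityMeasure μ' := hs'.isProb
  let φ : S →* Equiv.Perm (Sym S m) := MulAction.toPermHom S (Sym S m)
  have hφ : ∀ (a : S) (y : Sym S m), φ a y = a • y := fun a y => rfl
  let c : Fin ((r + 1) * d) → S := fun e => (h e.divNat)⁻¹ * t e.modNat * h e.divNat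
  have hmp : ∀ a : S, IsMp μ' (φ a) := by
    intro a
    refine ⟨?_, hs'.mp a⟩
    have e : ⇑(φ a).symm = fun y : Sym S m => a⁻¹ • y := by
      funext y
      rw [Equiv.symm_apply_eq, hφ, smul_inv_smul]
    rw [e]
    exact measurable_const_smul a⁻¹
  refine ⟨Sym S m, inferInstance, inferInstance, μ', hp', r, fun e => φ (c e), fun i => hmp _, ?_, ?_, ?_⟩
  · have h1 : Subgroup.closure (Set.range fun e => φ (c e)) ≤ (⊤ : Subgroup S).map φ := by
      rw [Subgroup.closure_le]
      rintro _ ⟨e, rfl⟩
      exact Subgroup.mem_map_of_mem φ (Subgroup.mem_top _)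
    have h2 : (⊤ : Subgroup S).lowerCentralSeries k = ⊥ := by
      rw [← Subgroup.map_subtype_inj, Subgroup.top_subtype_lowerCentralSeries, Subgroup.map_bot]
      exact hk
    rw [eq_bot_iff]
    refine (Subgroup.lowerCentralSeries_mono k h1).trans ?_
    simp only
    rw [← Subgroup.map_lowerCentralSeries, h2, Subgroup.map_bot]
  · intro s hs hi
    refine he' s hs ?_
    have h3 : ∀ l : Fin d, (fun y : Sym S m => t l • y) ⁻¹' s = s := by
      intro l
      have h4 : ⇑(φ (c (finProdFinEquiv (0, l)))) ⁻¹' s = s := hi (finProdFinEquiv (0, l))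
      have h5 := finProdFinEquiv.symm_apply_apply ((0 : Fin (r + 1)), l)
      have h6 : (finProdFinEquiv ((0 : Fin (r + 1)), l)).divNat = 0 := congrArg Prod.fst h5
      have h7 : (finProdFinEquiv ((0 : Fin (r + 1)), l)).modNat = l := congrArg Prod.snd h5
      have h8 : c (finProdFinEquiv (0, l)) = t l := by
        change (h (finProdFinEquiv ((0 : Fin (r + 1)), l)).divNat)⁻¹ *
          t (finProdFinEquiv ((0 : Fin (r + 1)), l)).modNat *
          h (finProdFinEquiv ((0 : Fin (r + 1)), l)).divNat = t l
        rw [h6, h7, hh, inv_one, one_mul, mul_one]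
      rw [h8] at h4
      exact h4
    rintro ⟨σ, hσ⟩
    induction hσ using Subgroup.closure_induction with
    | mem x hx =>
      obtain ⟨l, rfl⟩ := hx
      exact h3 l
    | one =>
      have e : (fun y : Sym S m => (⟨1, one_mem _⟩ : S) • y) = id := by
        funext y
        exact one_smul S y
      rw [e, Set.preimage_id]
    | mul x y hx hy ihx ihy =>
      have e : (fun z : Sym S m => (⟨x * y, mul_mem hx hy⟩ : S) • z) =
          (fun z : Sym S m => (⟨x, hx⟩ : S) • z) ∘ fun z : Sym S m => (⟨y, hy⟩ : S) • z := by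
        funext z
        exact mul_smul (⟨x, hx⟩ : S) (⟨y, hy⟩ : S) z
      rw [e, Set.preimage_comp, ihx, ihy]
    | inv x hx ih =>
      have e : (fun z : Sym S m => (⟨x, hx⟩ : S) • z) ∘ (fun z : Sym S m => (⟨x⁻¹, inv_mem hx⟩ : S) • z) =
          id := by
        funext z
        exact smul_inv_smul (⟨x, hx⟩ : S) z
      conv_lhs => rw [← ih]
      rw [← Set.preimage_comp, e, Set.preimage_id]
  · refine ⟨fun e => {y | h e.divNat • y ∈ B e.modNat}, δ, fun e => ?_, hδ, ?_⟩
    · exact measurable_const_smul (h e.divNat) (hBm e.modNat)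
    · have hw : ∀ (e' : Fin ((r + 1) * m)) (n : τ) (y : Sym S m),
          wd (fun e => φ (c e)) (fun i => if i.divNat = e'.divNat then p i.modNat e'.modNat n else 0) y =
            ((h e'.divNat)⁻¹ * g e'.modNat n * h e'.divNat) • y := by
        intro e' n y
        rw [← wd_map, hφ]
        congr 1
        have h9 := wd_block (fun (i : Fin (r + 1)) (l : Fin d) => (h i)⁻¹ * t l * h i) e'.divNat
          (fun l => p l e'.modNat n)
        refine h9.trans ?_
        exact wd_conj (h e'.divNat) t fun l => p l e'.modNat n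
      simp only [hw]
      exact hlt

end Pool.Agent.K1H28.FB
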