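import Pool.Agent.K1H28.FB.Coind
import Pool.Agent.K1H28.FB.Sym
import Pool.Agent.R203.Bern

/-!
# The coinduced system: measure and mixing
-/

set_option autoImplicit false
set_option linter.unusedSectionVars false

open MeasureTheory ProbabilityTheory Filter Topology
open scoped ENNReal symmDiff

namespace Pool.Agent.K1H28.FB

open Pool.Agent.R203.Bern

section Bern

variable {A X : Type} [AddCommGroup A] [Countable A] [MeasurableSpace X] (μ : Measure X) [IsProbabilityMeasure μ]

lemma isMp_sh (a : A) : IsMp (iid A μ) (sh a) :=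
  ⟨measurable_comp (fun n : A => n - a), measurable_comp (fun n : A => n + a),
    map_comp μ (fun n : A => n + a) (add_left_injective a)⟩

lemma isMp_mu {f : A → Equiv.Perm X} (hf : ∀ n, IsMp μ (f n)) : IsMp (iid A μ) (mu f) := by
  refine ⟨?_, ?_, ?_⟩
  · exact measurable_pi_lambda _ fun n => (hf n).1.comp (measurable_pi_apply n)
  · exact measurable_pi_lambda _ fun n => (hf n).2.measurable.comp (measurable_pi_apply n)
  · have h1 := Measure.infinitePi_map_pi (fun _ : A => μ) (f := fun n => ⇑(f n)) (fun n => (hf n).2.measurable)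
    have h2 : (fun n : A => μ.map (f n)) = fun _ => μ := funext fun n => (hf n).2.map_eq
    unfold iid
    simp only [h2] at h1
    exact h1

/-- mixing of the Bernoulli action -/
theorem mix_sh {B C : Set (A → X)} (hB : MeasurableSet B) (hC : MeasurableSet C) :
    Tendsto (fun a : A => (iid A μ).real (B ∩ sh a ⁻¹' C)) cofinite
      (𝓝 ((iid A μ).real B * (iid A μ).real C)) := by
  classical
  set ν := iid A μ with hν
  rw [Metric.tendsto_nhds]
  intro ε hε
  set δ := ε / 5 with hδ
  have hδ0 : 0 < δ := by positivity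
  obtain ⟨F, S, hS, hlt⟩ := approx μ hC (ENNReal.ofReal_pos.2 hδ0)
  obtain ⟨G, S', hS', hlt'⟩ := approx μ hB (ENNReal.ofReal_pos.2 hδ0)
  set C' : Set (A → X) := F.restrict ⁻¹' S with hC'
  set B' : Set (A → X) := G.restrict ⁻¹' S' with hB'
  have hCm : MeasurableSet C' := (Finset.measurable_restrict F) hS
  have hBm : MeasurableSet B' := (Finset.measurable_restrict G) hS'
  have hdC : ν.real (C' ∆ C) ≤ δ := by
    rw [measureReal_def]
    exact ENNReal.toReal_le_of_le_ofReal hδ0.le hlt.le
  have hdB : ν.real (B' ∆ B) ≤ δ := by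
    rw [measureReal_def]
    exact ENNReal.toReal_le_of_le_ofReal hδ0.le hlt'.le
  have hfin : {a : A | ¬ ∀ k ∈ F, k + a ∉ G}.Finite := by
    refine ((F ×ˢ G).image fun p => p.2 - p.1).finite_toSet.subset fun a ha => ?_
    simp only [Set.mem_ofPred_eq] at ha
    push Not at ha
    obtain ⟨k, hk, hk2⟩ := ha
    rw [Finset.mem_coe, Finset.mem_image]
    exact ⟨(k, k + a), Finset.mem_product.2 ⟨hk, hk2⟩, add_sub_cancel_left k a⟩
  have hev : ∀ᶠ a : A in cofinite, ∀ k ∈ F, k + a ∉ G := by
    rw [Filter.eventually_cofinite]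
    exact hfin
  filter_upwards [hev] with a ha
  have hmp := (isMp_sh μ a).2
  have hnot : ∀ k : F, ((k : A) + a) ∉ G := fun k => ha k k.2
  have hind := indep_coord μ G (fun k : F => (k : A) + a) hnot Finset.univ
  have hind2 := hind.comp (φ := id) (ψ := fun z : (↥(Finset.univ : Finset F) → X) =>
    fun k : F => z ⟨k, Finset.mem_univ k⟩) measurable_id
    (measurable_pi_lambda _ fun k => measurable_pi_apply _)
  have e1 : ν.real (B' ∩ sh a ⁻¹' C') = ν.real B' * ν.real C' := by
    have h3 := hind2.measure_inter_preimage_eq_mul S' S hS' hS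
    have h4 : sh a ⁻¹' C' = (fun x : A → X => fun k : F => x ((k : A) + a)) ⁻¹' S := rfl
    have h5 : ν.real (sh a ⁻¹' C') = ν.real C' := by
      rw [measureReal_def, hmp.measure_preimage hCm.nullMeasurableSet, measureReal_def]
    rw [← h5, measureReal_def, h4, measureReal_def, measureReal_def, ← ENNReal.toReal_mul]
    exact congrArg ENNReal.toReal h3
  have hsub : ∀ U V : Set (A → X), ν.real U ≤ ν.real V + ν.real (U \ V) := by
    intro U V
    calc ν.real U ≤ ν.real (V ∪ (U \ V)) := measureReal_mono (by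
          intro z hz; by_cases h : z ∈ V <;> simp [h, hz])
      _ ≤ _ := measureReal_union_le _ _
  have hpre : ν.real (sh a ⁻¹' (C' ∆ C)) ≤ δ := by
    rw [measureReal_def, hmp.measure_preimage (hCm.symmDiff hC).nullMeasurableSet,
      ← measureReal_def]
    exact hdC
  have hU : ν.real (sh a ⁻¹' (C' ∆ C) ∪ (B' ∆ B)) ≤ 2 * δ := by
    refine (measureReal_union_le _ _).trans ?_
    linarith
  have t1 : ν.real ((B ∩ sh a ⁻¹' C) \ (B' ∩ sh a ⁻¹' C')) ≤ 2 * δ := by
    refine (measureReal_mono ?_).trans hU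
    intro ω hω
    simp only [Set.mem_sdiff, Set.mem_inter_iff, Set.mem_preimage, Set.mem_union, Set.mem_symmDiff] at hω ⊢
    tauto
  have t2 : ν.real ((B' ∩ sh a ⁻¹' C') \ (B ∩ sh a ⁻¹' C)) ≤ 2 * δ := by
    refine (measureReal_mono ?_).trans hU
    intro ω hω
    simp only [Set.mem_sdiff, Set.mem_inter_iff, Set.mem_preimage, Set.mem_union, Set.mem_symmDiff] at hω ⊢
    tauto
  have s1 := hsub (B ∩ sh a ⁻¹' C) (B' ∩ sh a ⁻¹' C')
  have s2 := hsub (B' ∩ sh a ⁻¹' C') (B ∩ sh a ⁻¹' C)
  have e4 : |ν.real C' - ν.real C| ≤ δ := by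
    have := abs_measureReal_sub_le_measureReal_symmDiff (μ := ν) hCm.nullMeasurableSet
      hC.nullMeasurableSet
    exact this.trans hdC
  have e5 : |ν.real B' - ν.real B| ≤ δ := by
    have := abs_measureReal_sub_le_measureReal_symmDiff (μ := ν) hBm.nullMeasurableSet
      hB.nullMeasurableSet
    exact this.trans hdB
  have c0 : 0 ≤ ν.real C' := measureReal_nonneg
  have c1 : ν.real C' ≤ 1 := measureReal_le_one
  have b0 : 0 ≤ ν.real B := measureReal_nonneg
  have b1 : ν.real B ≤ 1 := measureReal_le_one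
  have e6 : |ν.real B' * ν.real C' - ν.real B * ν.real C| ≤ 2 * δ := by
    have : ν.real B' * ν.real C' - ν.real B * ν.real C =
        ν.real C' * (ν.real B' - ν.real B) + (ν.real C' - ν.real C) * ν.real B := by ring
    rw [this]
    refine (abs_add_le _ _).trans ?_
    rw [abs_mul, abs_mul, abs_of_nonneg c0, abs_of_nonneg b0]
    nlinarith [abs_nonneg (ν.real B' - ν.real B), abs_nonneg (ν.real C' - ν.real C)]
  rw [Real.dist_eq]
  rw [e1] at s1 s2
  rw [abs_le] at e6
  rw [abs_lt]
  constructor <;> linarith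

/-- mixing of the conjugates of the Bernoulli action -/
theorem mix_conj {σ : Equiv.Perm (A → X)} (hσ : IsMp (iid A μ) σ) {B C : Set (A → X)} (hB : MeasurableSet B)
    (hC : MeasurableSet C) :
    Tendsto (fun a : A => (iid A μ) (B ∩ ⇑(σ * sh a * σ⁻¹ : Equiv.Perm (A → X)) ⁻¹' C)) cofinite
      (𝓝 ((iid A μ) B * (iid A μ) C)) := by
  have hB' : MeasurableSet (σ ⁻¹' B) := hσ.2.measurable hB
  have hC' : MeasurableSet (σ ⁻¹' C) := hσ.2.measurable hC
  have h := ENNReal.tendsto_ofReal (mix_sh μ hB' hC')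
  rw [ENNReal.ofReal_mul measureReal_nonneg, ofReal_measureReal, ofReal_measureReal,
    hσ.2.measure_preimage hB.nullMeasurableSet, hσ.2.measure_preimage hC.nullMeasurableSet] at h
  refine h.congr fun a => ?_
  rw [ofReal_measureReal]
  have hm : MeasurableSet (B ∩ ⇑(σ * sh a * σ⁻¹ : Equiv.Perm (A → X)) ⁻¹' C) :=
    hB.inter ((isMp_mul (isMp_mul hσ (isMp_sh μ a)) (isMp_inv hσ)).2.measurable hC)
  rw [← hσ.2.measure_preimage hm.nullMeasurableSet]
  congr 1
  ext y
  have e : σ⁻¹ (σ y) = y := σ.symm_apply_apply y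
  simp only [Set.mem_inter_iff, Set.mem_preimage, Equiv.Perm.mul_apply, e]

/-- the linear map at the coordinate zero -/
lemma coord_zero (g : A → Equiv.Perm X) (hg : g 0 = 1) (n : A) (y : A → X) :
    (sh n * (mu g * sh (-n) * (mu g)⁻¹) : Equiv.Perm (A → X)) y 0 = g n (y 0) := by
  rw [mu_inv]
  simp only [Equiv.Perm.mul_apply, sh_apply, mu_apply]
  rw [zero_add, add_neg_cancel, hg, inv_one, Equiv.Perm.one_apply]

end Bern

end Pool.Agent.K1H28.FB
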