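import Pool.Agent.K1H28.FB.Sym

/-!
# The symbolic model for a fixed number of functions
-/

set_option autoImplicit false
set_option linter.unusedSectionVars false

open MeasureTheory Filter Topology Finset
open scoped ENNReal

namespace Pool.Agent.K1H28.FB

open Pool.Agent.R291.QD

variable {ι τ : Type} [SemilatticeSup ι] [Nonempty ι] [Countable ι]

/-- If the averages of the products of the `1 + δ_e a_e` converge for all small `δ_e`, so do those of the product of
the `a_e`. -/
lemma cv_of_pert (w : ι → ℂ) (E : ι → Finset τ) {K : ℕ} (a : Fin K → τ → ℂ) (z : ℕ → ℝ)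
    (hz : Function.Injective z)
    (h : ∀ k, Cv (avg w E fun n => ∏ e : Fin K, (1 + ((z k ^ 2 ^ (e : ℕ) : ℝ) : ℂ) * a e n))) :
    Cv (avg w E fun n => ∏ e : Fin K, a e n) := by
  classical
  by_contra hc
  have h1 := poly_finite (ι := ι) (K := K) (fun S => avg w E fun n => ∏ e ∈ S, a e n) (S₀ := univ) hc
  refine Set.infinite_range_of_injective hz (h1.subset ?_)
  rintro _ ⟨k, rfl⟩
  have h2 := h k
  rw [avg_expand] at h2
  exact h2

/-- The names model: convergence almost everywhere for it implies convergence almost everywhere. -/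
theorem names (w : ι → ℂ) (E : ι → Finset τ) {X : Type} [MeasurableSpace X] {μ : Measure X}
    [IsProbabilityMeasure μ] {d m : ℕ} {T : Fin d → Equiv.Perm X} (hT : ∀ i, IsMp μ (T i)) {k : ℕ}
    (hk : (Subgroup.closure (Set.range T)).lowerCentralSeries k = ⊥) (p : Fin d → Fin m → τ → ℤ)
    {A : Fin m → Set X} (hA : ∀ j, MeasurableSet (A j)) :
    ∃ (X' : Type) (_ : MeasurableSpace X') (_ : StandardBorelSpace X') (μ' : Measure X')
      (_ : IsProbabilityMeasure μ') (T' : Fin d → Equiv.Perm X'),
      (∀ i, IsMp μ' (T' i)) ∧ (Subgroup.closure (Set.range T')).lowerCentralSeries k = ⊥ ∧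
      ∃ A' : Fin m → Set X', (∀ j, MeasurableSet (A' j)) ∧
        ((∀ᵐ y ∂μ', Cv (avg w E fun n => ∏ j, ind (A' j) (wd T' (fun i => p i j n) y))) →
          ∀ᵐ x ∂μ, Cv (avg w E fun n => ∏ j, ind (A j) (wd T (fun i => p i j n) x))) := by
  classical
  set S : Subgroup (Equiv.Perm X) := Subgroup.closure (Set.range T) with hS
  have hcount : Countable S := closure_countable T
  let t : Fin d → S := fun i => ⟨T i, Subgroup.subset_closure ⟨i, rfl⟩⟩
  let g : Fin m → τ → S := fun j n => wd t fun i => p i j n
  have hg : ∀ j n, ((g j n : S) : Equiv.Perm X) = wd T (fun i => p i j n) := fun j n =>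
    wd_map S.subtype t _
  let Φ : X → Sym S m := fun x g j => decide ((g : Equiv.Perm X) x ∈ A j)
  have hΦm : Measurable Φ := by
    refine measurable_pi_lambda _ fun g => measurable_pi_lambda _ fun j => ?_
    refine measurable_to_bool ?_
    have e : (fun x => Φ x g j) ⁻¹' {true} = (g : Equiv.Perm X) ⁻¹' A j := by
      ext x
      change decide ((g : Equiv.Perm X) x ∈ A j) = true ↔ (g : Equiv.Perm X) x ∈ A j
      exact decide_eq_true_iff
    rw [e]
    exact (isMp_closure hT g.2).2.measurable (hA j)
  have hΦs : ∀ (h : S) (x : X), h • Φ x = Φ ((h : Equiv.Perm X) x) := by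
    intro h x
    funext g j
    rw [sym_smul]
    change decide (((g * h : S) : Equiv.Perm X) x ∈ A j) = decide ((g : Equiv.Perm X) ((h : Equiv.Perm X) x) ∈ A j)
    rfl
  set ν : Measure (Sym S m) := μ.map Φ with hν
  have hνp : IsProbabilityMeasure ν := Measure.isProbabilityMeasure_map hΦm.aemeasurable
  have hsys : IsSystem S ν := by
    refine ⟨hνp, fun h => ?_⟩
    have hmp := (isMp_closure hT h.2).2
    rw [hν, Measure.map_map (measurable_const_smul h) hΦm]
    have e : (fun w : Sym S m => h • w) ∘ Φ = Φ ∘ ⇑(h : Equiv.Perm X) := by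
      funext x
      exact hΦs h x
    rw [e, ← Measure.map_map hΦm hmp.measurable, hmp.map_eq]
  set B : Fin m → Set (Sym S m) := fun j => {w | w 1 j = true} with hB
  have hBm : ∀ j, MeasurableSet (B j) := by
    intro j
    have h1 : Measurable fun w : Sym S m => w 1 j :=
      (measurable_pi_apply j).comp (measurable_pi_apply (1 : S) : Measurable fun w : S → Fin m → Bool => w 1)
    exact h1 (measurableSet_singleton true)
  have hBi : ∀ (j : Fin m) (n : τ) (x : X), ind (B j) (g j n • Φ x) = ind (A j) (wd T (fun i => p i j n) x) := by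
    intro j n x
    rw [hΦs, hg]
    have e : Φ (wd T (fun i => p i j n) x) ∈ B j ↔ wd T (fun i => p i j n) x ∈ A j := by
      change decide (((1 : S) : Equiv.Perm X) (wd T (fun i => p i j n) x) ∈ A j) = true ↔ _
      rw [decide_eq_true_iff]
      rfl
    by_cases h : wd T (fun i => p i j n) x ∈ A j
    · rw [ind_mem h, ind_mem (e.2 h)]
    · rw [ind_notMem h, ind_notMem fun h' => h (e.1 h')]
  let φ : S →* Equiv.Perm (Sym S m) := MulAction.toPermHom S (Sym S m)
  have hφ : ∀ (a : S) (y : Sym S m), φ a y = a • y := fun a y => rfl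
  have hmp : ∀ a : S, IsMp ν (φ a) := by
    intro a
    refine ⟨?_, hsys.mp a⟩
    have e : ⇑(φ a).symm = fun y : Sym S m => a⁻¹ • y := by
      funext y
      rw [Equiv.symm_apply_eq, hφ, smul_inv_smul]
    rw [e]
    exact measurable_const_smul a⁻¹
  refine ⟨Sym S m, inferInstance, inferInstance, ν, hνp, fun i => φ (t i), fun i => hmp _, ?_, B, hBm, ?_⟩
  · have h1 : Subgroup.closure (Set.range fun i => φ (t i)) ≤ (⊤ : Subgroup S).map φ := by
      rw [Subgroup.closure_le]
      rintro _ ⟨e, rfl⟩
      exact Subgroup.mem_map_of_mem φ (Subgroup.mem_top _)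
    have h2 : (⊤ : Subgroup S).lowerCentralSeries k = ⊥ := by
      rw [← Subgroup.map_subtype_inj, Subgroup.top_subtype_lowerCentralSeries, Subgroup.map_bot]
      exact hk
    rw [eq_bot_iff]
    refine (Subgroup.lowerCentralSeries_mono k h1).trans ?_
    simp only
    rw [← Subgroup.map_lowerCentralSeries, h2, Subgroup.map_bot]
  · intro hc
    have hw : ∀ (j : Fin m) (n : τ) (y : Sym S m), wd (fun i => φ (t i)) (fun i => p i j n) y = g j n • y := by
      intro j n y
      rw [← wd_map, hφ]
    simp only [hw] at hc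
    have ham : ∀ N, Measurable fun y : Sym S m => avg w E (fun n => ∏ j, ind (B j) (g j n • y)) N := by
      intro N
      unfold avg
      refine Measurable.const_mul (Finset.measurable_fun_sum _ fun n _ => ?_) _
      exact Finset.measurable_fun_prod _ fun j _ => (ind_meas (hBm j)).comp (measurable_const_smul _)
    rw [hν] at hc
    have h1 := (ae_map_iff (p := fun y => Cv (avg w E fun n => ∏ j, ind (B j) (g j n • y)))
      hΦm.aemeasurable (cv_meas ham)).1 hc
    filter_upwards [h1] with x hx
    simp only [hBi] at hx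
    exact hx

end Pool.Agent.K1H28.FB
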