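import Pool.Agent.K1H28.FB.Bern
import Pool.Agent.K1H28.FB.Names

/-!
# Box averages and linear actions of `ℤ^κ`
-/

set_option autoImplicit false
set_option linter.unusedSectionVars false

open MeasureTheory Filter Topology
open scoped ENNReal

namespace Pool.Agent.K1H28.FB

/-- the weights of the box averages -/
noncomputable def bw {κ : ℕ} (M : Fin κ → ℕ) : ℂ := ((∏ l, M l : ℕ) : ℂ)⁻¹

/-- the boxes -/
noncomputable def bt {κ : ℕ} (M : Fin κ → ℕ) : Finset (Fin κ → ℕ) := Fintype.piFinset fun l => Finset.Icc 1 (M l)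

lemma bw_bt {κ : ℕ} (M : Fin κ → ℕ) : ‖bw M‖ * (bt M).card ≤ 1 := by
  unfold bw bt
  rw [norm_inv, Complex.norm_natCast, Fintype.card_piFinset]
  simp only [Nat.card_Icc, Nat.add_sub_cancel]
  by_cases h : ((∏ l, M l : ℕ) : ℝ) = 0
  · rw [h]
    simp
  · rw [inv_mul_cancel₀ h]

lemma box_cast {X : Type} {κ m : ℕ} (g : Fin m → (Fin κ → ℕ) → X) (A : Fin m → Set X) (δ : Fin m → ℝ)
    (M : Fin κ → ℕ) :
    avg bw bt (fun n => ∏ j, (1 + (δ j : ℂ) * ind (A j) (g j n))) M =
      ((((∏ l, M l : ℕ) : ℝ)⁻¹ * ∑ n ∈ Fintype.piFinset (fun l => Finset.Icc 1 (M l)),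
        ∏ j, (1 + δ j * (A j).indicator (fun _ => 1) (g j n)) : ℝ) : ℂ) := by
  unfold avg bw bt
  push_cast
  congr 1
  refine Finset.sum_congr rfl fun n _ => Finset.prod_congr rfl fun j _ => ?_
  congr 2
  by_cases h : g j n ∈ A j
  · rw [ind_mem h, Set.indicator_of_mem h, Complex.ofReal_one]
  · rw [ind_notMem h, Set.indicator_of_notMem h, Complex.ofReal_zero]

lemma box_conv {X : Type} {κ m : ℕ} (g : Fin m → (Fin κ → ℕ) → X) (A : Fin m → Set X) (δ : Fin m → ℝ) :
    (∃ L : ℝ, Tendsto (fun M : Fin κ → ℕ => ((∏ l, M l : ℕ) : ℝ)⁻¹ *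
        ∑ n ∈ Fintype.piFinset (fun l => Finset.Icc 1 (M l)),
          ∏ j, (1 + δ j * (A j).indicator (fun _ => 1) (g j n))) atTop (𝓝 L)) ↔
      Cv (avg bw bt fun n => ∏ j, (1 + (δ j : ℂ) * ind (A j) (g j n))) := by
  constructor
  · rintro ⟨L, hL⟩
    refine ⟨(L : ℂ), ((Complex.continuous_ofReal.tendsto L).comp hL).congr fun N => ?_⟩
    rw [box_cast]
    rfl
  · rintro ⟨L, hL⟩
    refine ⟨L.re, ((Complex.continuous_re.tendsto L).comp hL).congr fun N => ?_⟩
    rw [Function.comp_apply, box_cast, Complex.ofReal_re]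

/-! ### Actions of `ℤ^κ` -/

lemma wd_blocks {G : Type*} [Group G] {r d : ℕ} (t : Fin r → Fin d → G) (b : Fin r → Fin d → ℤ) :
    wd (fun e : Fin (r * d) => t e.divNat e.modNat) (fun e => b e.divNat e.modNat) =
      (List.ofFn fun i => wd (t i) (b i)).prod := by
  unfold wd
  rw [List.ofFn_mul, List.prod_flatten, List.map_ofFn]
  have hdiv : ∀ (i : Fin r) (j : Fin d) (hlt : (i : ℕ) * d + j < r * d),
      (⟨(i : ℕ) * d + j, hlt⟩ : Fin (r * d)).divNat = i := by
    intro i j hlt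
    apply Fin.ext
    have hd : 0 < d := lt_of_le_of_lt (Nat.zero_le _) j.2
    change ((i : ℕ) * d + j) / d = i
    rw [mul_comm, Nat.mul_add_div hd, Nat.div_eq_of_lt j.2, add_zero]
  have hmod : ∀ (i : Fin r) (j : Fin d) (hlt : (i : ℕ) * d + j < r * d),
      (⟨(i : ℕ) * d + j, hlt⟩ : Fin (r * d)).modNat = j := by
    intro i j hlt
    apply Fin.ext
    change ((i : ℕ) * d + j) % d = j
    rw [mul_comm, Nat.mul_add_mod, Nat.mod_eq_of_lt j.2]
  congr 2
  funext i
  simp only [Function.comp_apply, hdiv, hmod]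

lemma wd_conj' {G : Type*} [Group G] {d : ℕ} (h : G) (t : Fin d → G) (a : Fin d → ℤ) :
    wd (fun i => h * t i * h⁻¹) a = h * wd t a * h⁻¹ := by
  have h1 := wd_map (MulAut.conj h).toMonoidHom t a
  exact h1.symm

/-- the translations as a homomorphism -/
def shHom (A X : Type) [AddCommGroup A] : Multiplicative A →* Equiv.Perm (A → X) where
  toFun a := sh (Multiplicative.toAdd a)
  map_one' := sh_zero
  map_mul' a b := sh_add _ _

lemma wd_sh {X : Type} {κ : ℕ} (n : Fin κ → ℤ) :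
    wd (fun l : Fin κ => (sh (-(Pi.single l 1)) : Equiv.Perm ((Fin κ → ℤ) → X))) n = sh (-n) := by
  have h1 := wd_map (shHom (Fin κ → ℤ) X) (fun l : Fin κ => Multiplicative.ofAdd (-(Pi.single l (1 : ℤ)))) n
  have h2 : wd (fun l : Fin κ => Multiplicative.ofAdd (-(Pi.single l (1 : ℤ)) : Fin κ → ℤ)) n =
      Multiplicative.ofAdd (-n) := by
    unfold wd
    rw [List.prod_ofFn]
    have e : ∀ l : Fin κ, Multiplicative.ofAdd (-(Pi.single l (1 : ℤ)) : Fin κ → ℤ) ^ n l =
        Multiplicative.ofAdd (n l • (-(Pi.single l (1 : ℤ)) : Fin κ → ℤ)) := fun l => rfl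
    simp only [e]
    rw [← ofAdd_sum]
    congr 1
    funext l'
    rw [Finset.sum_apply]
    simp only [Pi.smul_apply, Pi.neg_apply, smul_eq_mul, mul_neg]
    rw [Finset.sum_neg_distrib]
    congr 1
    rw [Finset.sum_eq_single l']
    · rw [Pi.single_eq_same, mul_one]
    · intro l _ hl
      rw [Pi.single_eq_of_ne hl.symm, mul_zero]
    · intro h
      exact absurd (Finset.mem_univ _) h
  rw [h2] at h1
  exact h1.symm

lemma Po.const {A G : Type} [AddCommGroup A] [Group G] {Φ : ℕ → Subgroup G} {i : ℕ} {c : G} (hc : c ∈ Φ i) :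
    Po Φ i (fun _ : A => c) := by
  intro m
  cases m with
  | zero => exact fun _ => hc
  | succ m =>
    refine ⟨fun _ => hc, fun s => ?_⟩
    have e : FB.dd s (fun _ : A => c) = fun _ => 1 := by
      funext n
      simp [FB.dd]
    rw [e]
    exact Po.one (i + 1) m

/-- products of powers of the generators as a polynomial map of weight one -/
lemma po_wd {A X : Type} [AddCommGroup A] {d : ℕ} (T : Fin d → Equiv.Perm X) (D : ℕ) (a : Fin d → A → ℤ)
    (ha : ∀ i, Dg D (a i)) :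
    Po (Fl (Subgroup.closure (Set.range T)) D) 1 (fun n : A => wd T fun i => a i n) := by
  have key : ∀ (l : List (Fin d)), Po (Fl (Subgroup.closure (Set.range T)) D) 1
      (fun n : A => (l.map fun i => T i ^ a i n).prod) := by
    intro l
    induction l with
    | nil => simpa using Po.one 1
    | cons i l ih =>
      simp only [List.map_cons, List.prod_cons]
      refine Po.mul (Fl_anti _ D) (Fl_comm _ D) (Po.zpow (r := D) (fun j hj => ?_) (ha i)) ih
      rw [Fl_low _ _ (by omega)]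
      exact Subgroup.subset_closure ⟨i, rfl⟩
  have h := key (List.finRange d)
  unfold wd
  simp only [List.ofFn_eq_map]
  exact h

/-- the maps of the coinduced system -/
def cmapB {X : Type} {κ m : ℕ} (g : Fin m → (Fin κ → ℤ) → Equiv.Perm X) :
    Fin (m + 1) → Fin κ → Equiv.Perm ((Fin κ → ℤ) → X) :=
  Fin.cons (fun l => sh (-(Pi.single l 1))) fun j l => mu (g j) * sh (-(Pi.single l 1)) * (mu (g j))⁻¹

lemma wd_cmapB_zero {X : Type} {κ m : ℕ} (g : Fin m → (Fin κ → ℤ) → Equiv.Perm X) (n : Fin κ → ℤ) :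
    wd (cmapB g 0) n = sh (-n) := wd_sh n

lemma wd_cmapB_succ {X : Type} {κ m : ℕ} (g : Fin m → (Fin κ → ℤ) → Equiv.Perm X) (j : Fin m) (n : Fin κ → ℤ) :
    wd (cmapB g j.succ) n = mu (g j) * sh (-n) * (mu (g j))⁻¹ := by
  rw [← wd_sh, ← wd_conj']
  rfl

end Pool.Agent.K1H28.FB
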