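import Pool.Agent.K1H28.FB.Pol
import Pool.Agent.H77R2.AssocLie

/-!
# Coinduction: polynomial maps become linear

On `A → X` the translation `sh a` and the coordinatewise maps `mu f`, `f` polynomial, generate a nilpotent group, and
`sh n * (mu g * sh (-n) * (mu g)⁻¹)` acts on the coordinate `0` as `g n * (g 0)⁻¹`.
-/

set_option autoImplicit false
set_option linter.unusedSectionVars false

namespace Pool.Agent.K1H28.FB

open scoped commutatorElement

section Coind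

variable {A X : Type} [AddCommGroup A]

/-- translation of the coordinates -/
def sh (a : A) : Equiv.Perm (A → X) where
  toFun y := fun n => y (n + a)
  invFun y := fun n => y (n - a)
  left_inv y := by
    funext n
    simp only [sub_add_cancel]
  right_inv y := by
    funext n
    simp only [add_sub_cancel_right]

/-- a map for each coordinate -/
def mu (f : A → Equiv.Perm X) : Equiv.Perm (A → X) where
  toFun y := fun n => f n (y n)
  invFun y := fun n => (f n)⁻¹ (y n)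
  left_inv y := by
    funext n
    exact (f n).symm_apply_apply (y n)
  right_inv y := by
    funext n
    exact (f n).apply_symm_apply (y n)

@[simp] lemma sh_apply (a : A) (y : A → X) (n : A) : sh a y n = y (n + a) := rfl

@[simp] lemma mu_apply (f : A → Equiv.Perm X) (y : A → X) (n : A) : mu f y n = f n (y n) := rfl

lemma sh_add (a b : A) : (sh (a + b) : Equiv.Perm (A → X)) = sh a * sh b := by
  refine Equiv.ext fun y => funext fun n => ?_
  simp only [Equiv.Perm.mul_apply, sh_apply]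
  rw [add_assoc]

lemma sh_zero : (sh (0 : A) : Equiv.Perm (A → X)) = 1 := by
  refine Equiv.ext fun y => funext fun n => ?_
  simp

lemma sh_inv (a : A) : (sh a : Equiv.Perm (A → X))⁻¹ = sh (-a) := by
  rw [inv_eq_iff_mul_eq_one, ← sh_add, add_neg_cancel, sh_zero]

lemma mu_mul (f g : A → Equiv.Perm X) : mu f * mu g = mu fun n => f n * g n := rfl

lemma mu_one : mu (fun _ : A => (1 : Equiv.Perm X)) = 1 := rfl

lemma mu_inv (f : A → Equiv.Perm X) : (mu f)⁻¹ = mu fun n => (f n)⁻¹ := by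
  rw [inv_eq_iff_mul_eq_one, mu_mul]
  simp only [mul_inv_cancel]
  rfl

lemma sh_mu (a : A) (f : A → Equiv.Perm X) : sh a * mu f = mu (fun n => f (n + a)) * sh a := by
  refine Equiv.ext fun y => funext fun n => ?_
  simp only [Equiv.Perm.mul_apply, sh_apply, mu_apply]

lemma conj_eq (g : A → Equiv.Perm X) (a : A) :
    mu g * sh a * (mu g)⁻¹ = mu (fun n => (dd a g n)⁻¹) * sh a := by
  rw [mu_inv, mul_assoc, sh_mu, ← mul_assoc, mu_mul]
  simp only [dd, mul_inv_rev, inv_inv]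

lemma comm_eq (f g : A → Equiv.Perm X) (a b : A) :
    ⁅mu g * sh b, mu f * sh a⁆ =
      mu (fun n => (g n * dd b f n * (g n)⁻¹) * ⁅g n, f n⁆ * (f n * (dd a g n)⁻¹ * (f n)⁻¹)) := by
  have h1 : ⁅mu g * sh b, mu f * sh a⁆ = mu (fun n => g n * f (n + b) * (g (n + a))⁻¹ * (f n)⁻¹) := by
    rw [commutatorElement_def, mul_inv_rev, mul_inv_rev, sh_inv, sh_inv, mu_inv, mu_inv]
    refine Equiv.ext fun y => funext fun n => ?_
    simp only [Equiv.Perm.mul_apply, sh_apply, mu_apply]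
    have e1 : n + b + a + -b = n + a := by abel
    have e2 : n + a + -a = n := by abel
    rw [e1, e2]
  rw [h1]
  congr 1
  funext n
  simp only [dd, commutatorElement_def]
  group

variable {Φ : ℕ → Subgroup (Equiv.Perm X)}

/-- the group of the products of polynomial maps of weight `w` and translations -/
def K0 (A : Type) [AddCommGroup A] (Φ : ℕ → Subgroup (Equiv.Perm X)) (hanti : ∀ i, Φ (i + 1) ≤ Φ i)
    (hcomm : ∀ i j, ∀ a ∈ Φ i, ∀ b ∈ Φ j, ⁅a, b⁆ ∈ Φ (i + j)) (w : ℕ) : Subgroup (Equiv.Perm (A → X)) where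
  carrier := {σ | ∃ (f : A → Equiv.Perm X) (a : A), Po Φ w f ∧ σ = mu f * sh a}
  one_mem' := ⟨fun _ => 1, 0, Po.one w, by rw [mu_one, sh_zero, one_mul]⟩
  mul_mem' := by
    rintro _ _ ⟨f, a, hf, rfl⟩ ⟨g, b, hg, rfl⟩
    refine ⟨fun n => f n * g (n + a), a + b, Po.mul hanti hcomm hf (hg.shift a), ?_⟩
    rw [mul_assoc, ← mul_assoc (sh a), sh_mu, mul_assoc, ← sh_add, ← mul_assoc, mu_mul]
  inv_mem' := by
    rintro _ ⟨f, a, hf, rfl⟩
    refine ⟨fun n => (f (n + -a))⁻¹, -a, (Po.inv hanti hcomm hf).shift (-a), ?_⟩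
    rw [mul_inv_rev, sh_inv, mu_inv, sh_mu]

/-- the group of the polynomial maps of weight `i` -/
def KK (A : Type) [AddCommGroup A] (Φ : ℕ → Subgroup (Equiv.Perm X)) (hanti : ∀ i, Φ (i + 1) ≤ Φ i)
    (hcomm : ∀ i j, ∀ a ∈ Φ i, ∀ b ∈ Φ j, ⁅a, b⁆ ∈ Φ (i + j)) (i : ℕ) : Subgroup (Equiv.Perm (A → X)) where
  carrier := {σ | ∃ f : A → Equiv.Perm X, Po Φ i f ∧ σ = mu f}
  one_mem' := ⟨fun _ => 1, Po.one i, mu_one.symm⟩
  mul_mem' := by
    rintro _ _ ⟨f, hf, rfl⟩ ⟨g, hg, rfl⟩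
    exact ⟨_, Po.mul hanti hcomm hf hg, mu_mul f g⟩
  inv_mem' := by
    rintro _ ⟨f, hf, rfl⟩
    exact ⟨_, Po.inv hanti hcomm hf, mu_inv f⟩

lemma comm_mem (hanti : ∀ i, Φ (i + 1) ≤ Φ i) (hcomm : ∀ i j, ∀ a ∈ Φ i, ∀ b ∈ Φ j, ⁅a, b⁆ ∈ Φ (i + j))
    {w i : ℕ} (hw : 1 ≤ w) {f g : A → Equiv.Perm X} (hf : Po Φ w f) (hg : Po Φ i g)
    (a b : A) (hb : Po Φ (i + 1) (dd b f)) :
    ⁅mu g * sh b, mu f * sh a⁆ ∈ KK A Φ hanti hcomm (i + 1) := by
  rw [comm_eq]
  refine ⟨_, ?_, rfl⟩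
  refine Po.mul hanti hcomm (Po.mul hanti hcomm (Po.conj hanti hcomm hg hb) ?_) ?_
  · exact Po.le hanti (by omega) (Po.comm hanti hcomm hg hf)
  · exact Po.conj hanti hcomm hf (Po.inv hanti hcomm (hg.dd a))

lemma lcs_le (hanti : ∀ i, Φ (i + 1) ≤ Φ i) (hcomm : ∀ i j, ∀ a ∈ Φ i, ∀ b ∈ Φ j, ⁅a, b⁆ ∈ Φ (i + j))
    {w : ℕ} (hw : 1 ≤ w) {S : Subgroup (Equiv.Perm (A → X))} (hS : S ≤ K0 A Φ hanti hcomm w) (n : ℕ) :
    S.lowerCentralSeries (n + 1) ≤ KK A Φ hanti hcomm (w + (n + 1)) := by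
  induction n with
  | zero =>
    rw [Subgroup.lowerCentralSeries_succ, Subgroup.lowerCentralSeries_zero, Subgroup.commutator_le]
    intro σ hσ σ' hσ'
    obtain ⟨g, b, hg, rfl⟩ := hS hσ
    obtain ⟨f, a, hf, rfl⟩ := hS hσ'
    exact comm_mem hanti hcomm hw hf hg a b (hf.dd b)
  | succ n ih =>
    rw [Subgroup.lowerCentralSeries_succ, Subgroup.commutator_le]
    intro σ hσ σ' hσ'
    obtain ⟨g, hg, rfl⟩ := ih hσ
    obtain ⟨f, a, hf, rfl⟩ := hS hσ'
    have h1 := comm_mem hanti hcomm hw hf hg a 0 (by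
      have e : dd (0 : A) f = fun _ => 1 := by
        funext n
        simp [dd]
      rw [e]
      exact Po.one _)
    rw [sh_zero, mul_one] at h1
    exact h1

lemma lcs_bot (hanti : ∀ i, Φ (i + 1) ≤ Φ i) (hcomm : ∀ i j, ∀ a ∈ Φ i, ∀ b ∈ Φ j, ⁅a, b⁆ ∈ Φ (i + j))
    {w : ℕ} (hw : 1 ≤ w) {S : Subgroup (Equiv.Perm (A → X))} (hS : S ≤ K0 A Φ hanti hcomm w) {n : ℕ}
    (hn : 1 ≤ n) (hbot : Φ (w + n) = ⊥) : S.lowerCentralSeries n = ⊥ := by
  obtain ⟨n, rfl⟩ := Nat.exists_eq_add_of_le' hn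
  rw [eq_bot_iff]
  intro σ hσ
  obtain ⟨f, hf, rfl⟩ := lcs_le hanti hcomm hw hS n hσ
  have h1 : f = fun _ => 1 := by
    funext a
    have := hf.val a
    rw [hbot] at this
    exact Subgroup.mem_bot.1 this
  rw [h1, mu_one]
  exact Subgroup.one_mem _

end Coind

/-! ### The filtration -/

section Filt

variable {G : Type} [Group G]

lemma lcs_comm_mem' (S : Subgroup G) {a b : ℕ} {g h : G} (hg : g ∈ S.lowerCentralSeries a)
    (hh : h ∈ S.lowerCentralSeries b) : ⁅g, h⁆ ∈ S.lowerCentralSeries (a + b + 1) := by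
  rw [← Subgroup.top_subtype_lowerCentralSeries] at hg hh ⊢
  obtain ⟨g, hg, rfl⟩ := hg
  obtain ⟨h, hh, rfl⟩ := hh
  exact ⟨⁅g, h⁆, BurnLie.lcs_comm_mem hg hh, map_commutatorElement _ _ _⟩

/-- the filtration of degree `D` -/
def Fl (S : Subgroup G) (D i : ℕ) : Subgroup G := S.lowerCentralSeries ((i - 1) / (D + 1))

lemma Fl_anti (S : Subgroup G) (D i : ℕ) : Fl S D (i + 1) ≤ Fl S D i :=
  S.lowerCentralSeries_antitone (Nat.div_le_div_right (by omega))

lemma Fl_mono (S : Subgroup G) (D : ℕ) {i j : ℕ} (h : i ≤ j) : Fl S D j ≤ Fl S D i :=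
  S.lowerCentralSeries_antitone (Nat.div_le_div_right (by omega))

lemma Fl_comm (S : Subgroup G) (D i j : ℕ) (a : G) (ha : a ∈ Fl S D i) (b : G) (hb : b ∈ Fl S D j) :
    ⁅a, b⁆ ∈ Fl S D (i + j) := by
  have h1 := lcs_comm_mem' S ha hb
  refine S.lowerCentralSeries_antitone ?_ h1
  have hD : 0 < D + 1 := Nat.succ_pos D
  rw [Nat.div_le_iff_le_mul_add_pred hD]
  have h2 := Nat.lt_mul_div_succ (i - 1) hD
  have h3 := Nat.lt_mul_div_succ (j - 1) hD
  have h4 : (D + 1) * ((i - 1) / (D + 1) + (j - 1) / (D + 1) + 1) =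
    (D + 1) * ((i - 1) / (D + 1)) + (D + 1) * ((j - 1) / (D + 1)) + (D + 1) := by ring
  rw [h4]
  rw [mul_add, mul_one] at h2 h3
  omega

lemma Fl_low (S : Subgroup G) (D : ℕ) {i : ℕ} (hi : i ≤ D + 1) : Fl S D i = S := by
  unfold Fl
  rw [Nat.div_eq_of_lt (by omega), Subgroup.lowerCentralSeries_zero]

lemma Fl_bot (S : Subgroup G) (D : ℕ) {k i : ℕ} (hk : S.lowerCentralSeries k = ⊥) (hi : k * (D + 1) + 1 ≤ i) :
    Fl S D i = ⊥ := by
  unfold Fl
  rw [eq_bot_iff, ← hk]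
  refine S.lowerCentralSeries_antitone ?_
  rw [Nat.le_div_iff_mul_le (Nat.succ_pos D)]
  change k * (D + 1) ≤ i - 1
  omega

end Filt

end Pool.Agent.K1H28.FB
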