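import Mathlib

/-!
# Polynomial maps from an abelian group to a nilpotent group

`Q Φ m i f`: all differences of `f` of order at most `m` take values in the right term of the filtration `Φ`. The proof
of closure under products, inverses and commutators by induction on `m` is the one of
`Pool.Agent.Helper28.LCN.Q_all` (for sequences), written for maps on an abelian group.
-/

set_option autoImplicit false

namespace Pool.Agent.K1H28.FB

open scoped commutatorElement

section Leib

variable {A G : Type} [AddCommGroup A] [Group G]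

/-- left difference of a map with values in a group -/
def dd (s : A) (f : A → G) : A → G := fun n => f (n + s) * (f n)⁻¹

/-- for all `k ≤ m`, all `k`-fold differences of `f` have values in `Φ (i + k)` -/
def Q (Φ : ℕ → Subgroup G) : ℕ → ℕ → (A → G) → Prop
  | 0, i, f => ∀ n, f n ∈ Φ i
  | m + 1, i, f => (∀ n, f n ∈ Φ i) ∧ ∀ s, Q Φ m (i + 1) (dd s f)

theorem Q_drop (Φ : ℕ → Subgroup G) : ∀ (m i : ℕ) (f : A → G), Q Φ (m + 1) i f → Q Φ m i f
  | 0, _, _, h => h.1
  | m + 1, i, f, h => ⟨h.1, fun s => Q_drop Φ m (i + 1) (dd s f) (h.2 s)⟩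

theorem Q_weak (Φ : ℕ → Subgroup G) (hanti : ∀ i, Φ (i + 1) ≤ Φ i) :
    ∀ (m i : ℕ) (f : A → G), Q Φ m (i + 1) f → Q Φ m i f
  | 0, i, _, h => fun n => hanti i (h n)
  | m + 1, i, f, h => ⟨fun n => hanti i (h.1 n), fun s => Q_weak Φ hanti m (i + 1) (dd s f) (h.2 s)⟩

theorem Q_weakk (Φ : ℕ → Subgroup G) (hanti : ∀ i, Φ (i + 1) ≤ Φ i) (m i : ℕ) (f : A → G) :
    ∀ k : ℕ, Q Φ m (i + k) f → Q Φ m i f
  | 0, h => h
  | k + 1, h => Q_weakk Φ hanti m i f k (Q_weak Φ hanti m (i + k) f h)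

theorem Q_le (Φ : ℕ → Subgroup G) (hanti : ∀ i, Φ (i + 1) ≤ Φ i) (m : ℕ) {i j : ℕ} (hij : i ≤ j)
    (f : A → G) (h : Q Φ m j f) : Q Φ m i f := by
  obtain ⟨k, rfl⟩ := Nat.exists_eq_add_of_le hij
  exact Q_weakk Φ hanti m i f k h

theorem Q_val (Φ : ℕ → Subgroup G) (m i : ℕ) (f : A → G) (h : Q Φ m i f) (n : A) : f n ∈ Φ i := by
  cases m with
  | zero => exact h n
  | succ m => exact h.1 n

/-- Lazard–Leibman: polynomial maps are closed under products, inverses and commutators. -/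
theorem Q_all (Φ : ℕ → Subgroup G) (hanti : ∀ i, Φ (i + 1) ≤ Φ i)
    (hcomm : ∀ i j, ∀ a ∈ Φ i, ∀ b ∈ Φ j, ⁅a, b⁆ ∈ Φ (i + j)) (m : ℕ) :
    (∀ (i : ℕ) (f g : A → G), Q Φ m i f → Q Φ m i g → Q Φ m i (fun n => f n * g n)) ∧
    (∀ (i : ℕ) (f : A → G), Q Φ m i f → Q Φ m i (fun n => (f n)⁻¹)) ∧
    (∀ (i j : ℕ) (f g : A → G), Q Φ m i f → Q Φ m j g → Q Φ m (i + j) (fun n => ⁅f n, g n⁆)) := by
  induction m with
  | zero =>
    refine ⟨fun i f g hf hg n => (Φ i).mul_mem (hf n) (hg n), fun i f hf n => (Φ i).inv_mem (hf n),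
      fun i j f g hf hg n => hcomm i j _ (hf n) _ (hg n)⟩
  | succ m ih =>
    obtain ⟨ihm, ihi, ihc⟩ := ih
    refine ⟨?_, ?_, ?_⟩
    · intro i f g hf hg
      refine ⟨fun n => (Φ i).mul_mem (hf.1 n) (hg.1 n), fun s => ?_⟩
      have hu := hf.2 s
      have hv := hg.2 s
      have hf' := Q_drop Φ m i f hf
      have hc : Q Φ m (i + 1) (fun n => ⁅f n, dd s g n⁆) :=
        Q_le Φ hanti m (by omega) _ (ihc i (i + 1) f (dd s g) hf' hv)
      have h1 := ihm (i + 1) _ _ hu hc
      have h2 := ihm (i + 1) _ _ h1 hv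
      have he : dd s (fun n => f n * g n) = fun n => (dd s f n * ⁅f n, dd s g n⁆) * dd s g n := by
        funext n
        simp only [dd, commutatorElement_def]
        group
      rw [he]
      exact h2
    · intro i f hf
      refine ⟨fun n => (Φ i).inv_mem (hf.1 n), fun s => ?_⟩
      have hu := hf.2 s
      have hf' := Q_drop Φ m i f hf
      have hui := ihi (i + 1) _ hu
      have hfi := ihi i _ hf'
      have hc : Q Φ m (i + 1) (fun n => ⁅(f n)⁻¹, (dd s f n)⁻¹⁆) :=
        Q_le Φ hanti m (by omega) _ (ihc i (i + 1) _ _ hfi hui)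
      have h1 := ihm (i + 1) _ _ hc hui
      have he : dd s (fun n => (f n)⁻¹) = fun n => ⁅(f n)⁻¹, (dd s f n)⁻¹⁆ * (dd s f n)⁻¹ := by
        funext n
        simp only [dd, commutatorElement_def]
        group
      rw [he]
      exact h1
    · intro i j f g hf hg
      refine ⟨fun n => hcomm i j _ (hf.1 n) _ (hg.1 n), fun s => ?_⟩
      have hu := hf.2 s
      have hv := hg.2 s
      have hf' := Q_drop Φ m i f hf
      have hg' := Q_drop Φ m j g hg
      have hvj := Q_weak Φ hanti m j _ hv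
      have hvg := ihm j _ _ hvj hg'
      have hfvg := ihc i j _ _ hf' hvg
      have hfg := ihc i j _ _ hf' hg'
      have huvg := ihc (i + 1) j _ _ hu hvg
      have t1 : Q Φ m (i + j + 1) (fun n => ⁅dd s f n, ⁅f n, dd s g n * g n⁆⁆) :=
        Q_le Φ hanti m (by omega) _ (ihc (i + 1) (i + j) _ _ hu hfvg)
      have t2 : Q Φ m (i + j + 1) (fun n => ⁅f n, dd s g n⁆) :=
        Q_le Φ hanti m (by omega) _ (ihc i (j + 1) _ _ hf' hv)
      have t3 : Q Φ m (i + j + 1) (fun n => ⁅dd s g n, ⁅f n, g n⁆⁆) :=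
        Q_le Φ hanti m (by omega) _ (ihc (j + 1) (i + j) _ _ hv hfg)
      have t4 : Q Φ m (i + j + 1) (fun n => ⁅⁅f n, g n⁆, ⁅dd s f n, dd s g n * g n⁆⁆) :=
        Q_le Φ hanti m (by omega) _ (ihc (i + j) (i + 1 + j) _ _ hfg huvg)
      have t5 : Q Φ m (i + j + 1) (fun n => ⁅dd s f n, dd s g n * g n⁆) :=
        Q_le Φ hanti m (by omega) _ huvg
      have h := ihm _ _ _ (ihm _ _ _ (ihm _ _ _ (ihm _ _ _ t1 t2) t3) t4) t5
      have he : dd s (fun n => ⁅f n, g n⁆) = fun n => (((⁅dd s f n, ⁅f n, dd s g n * g n⁆⁆ *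
          ⁅f n, dd s g n⁆) * ⁅dd s g n, ⁅f n, g n⁆⁆) *
          ⁅⁅f n, g n⁆, ⁅dd s f n, dd s g n * g n⁆⁆) * ⁅dd s f n, dd s g n * g n⁆ := by
        funext n
        simp only [dd, commutatorElement_def]
        group
      rw [he]
      exact h

/-- invariance under translations -/
theorem Q_shift (Φ : ℕ → Subgroup G) : ∀ (m i : ℕ) (f : A → G) (a : A), Q Φ m i f →
    Q Φ m i (fun n => f (n + a))
  | 0, _, _, a, h => fun n => h (n + a)
  | m + 1, i, f, a, h => ⟨fun n => h.1 (n + a), fun s => by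
      have h1 := Q_shift Φ m (i + 1) (dd s f) a (h.2 s)
      have e : dd s (fun n => f (n + a)) = fun n => dd s f (n + a) := by
        funext n
        simp only [dd]
        rw [add_right_comm]
      rw [e]
      exact h1⟩

/-- polynomial maps of weight `i` -/
def Po (Φ : ℕ → Subgroup G) (i : ℕ) (f : A → G) : Prop := ∀ m, Q Φ m i f

variable {Φ : ℕ → Subgroup G}

lemma Po.val {i : ℕ} {f : A → G} (h : Po Φ i f) (n : A) : f n ∈ Φ i := h 0 n

lemma Po.dd {i : ℕ} {f : A → G} (h : Po Φ i f) (s : A) : Po Φ (i + 1) (dd s f) := fun m => (h (m + 1)).2 s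

lemma Po.shift {i : ℕ} {f : A → G} (h : Po Φ i f) (a : A) : Po Φ i (fun n => f (n + a)) := fun m =>
  Q_shift Φ m i f a (h m)

lemma Po.le (hanti : ∀ i, Φ (i + 1) ≤ Φ i) {i j : ℕ} (hij : i ≤ j) {f : A → G} (h : Po Φ j f) :
    Po Φ i f := fun m => Q_le Φ hanti m hij f (h m)

lemma Po.mul (hanti : ∀ i, Φ (i + 1) ≤ Φ i) (hcomm : ∀ i j, ∀ a ∈ Φ i, ∀ b ∈ Φ j, ⁅a, b⁆ ∈ Φ (i + j))
    {i : ℕ} {f g : A → G} (hf : Po Φ i f) (hg : Po Φ i g) : Po Φ i (fun n => f n * g n) := fun m =>
  (Q_all Φ hanti hcomm m).1 i f g (hf m) (hg m)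

lemma Po.inv (hanti : ∀ i, Φ (i + 1) ≤ Φ i) (hcomm : ∀ i j, ∀ a ∈ Φ i, ∀ b ∈ Φ j, ⁅a, b⁆ ∈ Φ (i + j))
    {i : ℕ} {f : A → G} (hf : Po Φ i f) : Po Φ i (fun n => (f n)⁻¹) := fun m =>
  (Q_all Φ hanti hcomm m).2.1 i f (hf m)

lemma Po.comm (hanti : ∀ i, Φ (i + 1) ≤ Φ i) (hcomm : ∀ i j, ∀ a ∈ Φ i, ∀ b ∈ Φ j, ⁅a, b⁆ ∈ Φ (i + j))
    {i j : ℕ} {f g : A → G} (hf : Po Φ i f) (hg : Po Φ j g) : Po Φ (i + j) (fun n => ⁅f n, g n⁆) := fun m =>
  (Q_all Φ hanti hcomm m).2.2 i j f g (hf m) (hg m)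

lemma Po.conj (hanti : ∀ i, Φ (i + 1) ≤ Φ i) (hcomm : ∀ i j, ∀ a ∈ Φ i, ∀ b ∈ Φ j, ⁅a, b⁆ ∈ Φ (i + j))
    {i j : ℕ} {f g : A → G} (hf : Po Φ i f) (hg : Po Φ j g) : Po Φ j (fun n => f n * g n * (f n)⁻¹) := by
  have h := Po.mul hanti hcomm (Po.le hanti (Nat.le_add_left j i) (Po.comm hanti hcomm hf hg)) hg
  have e : (fun n => ⁅f n, g n⁆ * g n) = fun n => f n * g n * (f n)⁻¹ := by
    funext n
    rw [commutatorElement_def, inv_mul_cancel_right]
  rw [e] at h
  exact h

lemma dd_one (s : A) : FB.dd s (fun _ : A => (1 : G)) = fun _ => 1 := by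
  funext n
  simp [FB.dd]

lemma Po.one (i : ℕ) : Po Φ i (fun _ : A => (1 : G)) := by
  intro m
  induction m generalizing i with
  | zero => exact fun n => (Φ i).one_mem
  | succ m ih =>
    refine ⟨fun n => (Φ i).one_mem, fun s => ?_⟩
    rw [dd_one]
    exact ih (i + 1)

end Leib

/-! ### Integer polynomial maps -/

section Deg

variable {A : Type} [AddCommGroup A]

/-- integer-valued maps of degree at most `r` -/
def Dg : ℕ → (A → ℤ) → Prop
  | 0, p => ∃ c, ∀ n, p n = c
  | r + 1, p => ∀ s, Dg r (fun n => p (n + s) - p n)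

lemma Dg.succ : ∀ {r : ℕ} {p : A → ℤ}, Dg r p → Dg (r + 1) p
  | 0, p, ⟨c, hc⟩ => fun s => ⟨0, fun n => by simp only [hc, sub_self]⟩
  | r + 1, p, h => fun s => Dg.succ (h s)

lemma Dg.mono {r s : ℕ} (hrs : r ≤ s) {p : A → ℤ} (h : Dg r p) : Dg s p := by
  induction hrs with
  | refl => exact h
  | step _ ih => exact ih.succ

lemma Dg.add : ∀ {r : ℕ} {p q : A → ℤ}, Dg r p → Dg r q → Dg r (fun n => p n + q n)
  | 0, p, q, ⟨c, hc⟩, ⟨c', hc'⟩ => ⟨c + c', fun n => by simp only [hc, hc']⟩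
  | r + 1, p, q, hp, hq => fun s => by
      have h := Dg.add (hp s) (hq s)
      have e : (fun n => (p (n + s) + q (n + s)) - (p n + q n)) =
          fun n => (p (n + s) - p n) + (q (n + s) - q n) := by
        funext n
        ring
      rw [e]
      exact h

lemma Dg.const (c : ℤ) (r : ℕ) : Dg r (fun _ : A => c) := Dg.mono (Nat.zero_le r) ⟨c, fun _ => rfl⟩

lemma Dg.shift : ∀ {r : ℕ} {p : A → ℤ} (a : A), Dg r p → Dg r (fun n => p (n + a))
  | 0, p, a, ⟨c, hc⟩ => ⟨c, fun n => hc _⟩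
  | r + 1, p, a, h => fun s => by
      have h1 := Dg.shift a (h s)
      have e : (fun n => p (n + s + a) - p (n + a)) = fun n => p (n + a + s) - p (n + a) := by
        funext n
        rw [add_right_comm]
      rw [e]
      exact h1

lemma Dg.smul (c : ℤ) : ∀ {r : ℕ} {p : A → ℤ}, Dg r p → Dg r (fun n => c * p n)
  | 0, p, ⟨c', hc'⟩ => ⟨c * c', fun n => by simp only [hc']⟩
  | r + 1, p, h => fun s => by
      have h1 := Dg.smul c (h s)
      have e : (fun n => c * p (n + s) - c * p n) = fun n => c * (p (n + s) - p n) := by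
        funext n
        ring
      rw [e]
      exact h1

lemma Dg.mul : ∀ {r s : ℕ} {p q : A → ℤ}, Dg r p → Dg s q → Dg (r + s) (fun n => p n * q n) := by
  have key : ∀ (t : ℕ) {r s : ℕ} {p q : A → ℤ}, r + s = t → Dg r p → Dg s q →
      Dg t (fun n => p n * q n) := by
    intro t
    induction t with
    | zero =>
      intro r s p q hrs hp hq
      obtain rfl : r = 0 := by omega
      obtain rfl : s = 0 := by omega
      obtain ⟨c, hc⟩ := hp
      obtain ⟨c', hc'⟩ := hq
      exact ⟨c * c', fun n => by simp only [hc, hc']⟩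
    | succ t ih =>
      intro r s p q hrs hp hq
      rcases Nat.eq_zero_or_pos r with hr | hr
      · subst hr
        obtain ⟨c, hc⟩ := hp
        have h1 := Dg.smul c hq
        rw [zero_add] at hrs
        subst hrs
        have e : (fun n => p n * q n) = fun n => c * q n := by
          funext n
          rw [hc]
        rw [e]
        exact h1
      rcases Nat.eq_zero_or_pos s with hs | hs
      · subst hs
        obtain ⟨c, hc⟩ := hq
        have h1 := Dg.smul c hp
        rw [add_zero] at hrs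
        subst hrs
        have e : (fun n => p n * q n) = fun n => c * p n := by
          funext n
          rw [hc, mul_comm]
        rw [e]
        exact h1
      obtain ⟨r, rfl⟩ := Nat.exists_eq_succ_of_ne_zero hr.ne'
      obtain ⟨s, rfl⟩ := Nat.exists_eq_succ_of_ne_zero hs.ne'
      intro a
      have h1 := ih (r := r) (s := s + 1) (by omega) (hp a) (Dg.shift a hq)
      have h2 := ih (r := r + 1) (s := s) (by omega) hp (hq a)
      have h3 := Dg.add h1 h2
      have e : (fun n => p (n + a) * q (n + a) - p n * q n) =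
          fun n => (p (n + a) - p n) * q (n + a) + p n * (q (n + a) - q n) := by
        funext n
        ring
      rw [e]
      exact h3
  intro r s p q hp hq
  exact key _ rfl hp hq

lemma Dg.pow {r : ℕ} {p : A → ℤ} (hp : Dg r p) (k : ℕ) : Dg (r * k) (fun n => p n ^ k) := by
  induction k with
  | zero => simpa using Dg.const 1 0
  | succ k ih =>
    have h := Dg.mul ih hp
    simp only [pow_succ]
    rw [Nat.mul_succ]
    exact h

lemma Dg.sum {α : Type*} (s : Finset α) {r : ℕ} {p : α → A → ℤ} (h : ∀ i ∈ s, Dg r (p i)) :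
    Dg r (fun n => ∑ i ∈ s, p i n) := by
  classical
  induction s using Finset.induction_on with
  | empty => simpa using Dg.const 0 r
  | insert a s ha ih =>
    have h1 := Dg.add (h a (Finset.mem_insert_self a s)) (ih fun i hi => h i (Finset.mem_insert_of_mem hi))
    have e : (fun n => ∑ i ∈ insert a s, p i n) = fun n => p a n + ∑ i ∈ s, p i n := by
      funext n
      rw [Finset.sum_insert ha]
    rw [e]
    exact h1

lemma Dg.prod {α : Type*} (s : Finset α) {r : α → ℕ} {p : α → A → ℤ} (h : ∀ i ∈ s, Dg (r i) (p i)) :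
    Dg (∑ i ∈ s, r i) (fun n => ∏ i ∈ s, p i n) := by
  classical
  induction s using Finset.induction_on with
  | empty => simpa using Dg.const 1 0
  | insert a s ha ih =>
    have h1 := Dg.mul (h a (Finset.mem_insert_self a s)) (ih fun i hi => h i (Finset.mem_insert_of_mem hi))
    have e : (fun n => ∏ i ∈ insert a s, p i n) = fun n => p a n * ∏ i ∈ s, p i n := by
      funext n
      rw [Finset.prod_insert ha]
    rw [e, Finset.sum_insert ha]
    exact h1

end Deg

lemma Dg.polynomial (P : Polynomial ℤ) {D : ℕ} (hP : P.natDegree ≤ D) : Dg D (fun n : ℤ => P.eval n) := by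
  have hid : Dg 1 (fun n : ℤ => n) := fun s => ⟨s, fun n => by ring⟩
  have e : (fun n : ℤ => P.eval n) = fun n => ∑ i ∈ Finset.range (P.natDegree + 1), P.coeff i * n ^ i := by
    funext n
    rw [Polynomial.eval_eq_sum_range]
  rw [e]
  refine Dg.sum _ fun i hi => Dg.smul _ ?_
  have h := Dg.pow hid i
  rw [one_mul] at h
  exact h.mono (by rw [Finset.mem_range] at hi; omega)

lemma Dg.mvPolynomial {κ : Type} [Fintype κ] (P : MvPolynomial κ ℤ) {D : ℕ} (hP : P.totalDegree ≤ D) :
    Dg D (fun n : κ → ℤ => MvPolynomial.eval n P) := by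
  have hid : ∀ l : κ, Dg 1 (fun n : κ → ℤ => n l) := fun l s => ⟨s l, fun n => by
    simp only [Pi.add_apply]
    ring⟩
  have e : (fun n : κ → ℤ => MvPolynomial.eval n P) =
      fun n => ∑ d ∈ P.support, P.coeff d * ∏ i ∈ d.support, n i ^ d i := by
    funext n
    rw [MvPolynomial.eval_eq]
  rw [e]
  refine Dg.sum _ fun d hd => Dg.smul _ ?_
  have h := Dg.prod d.support (r := fun i => 1 * d i) (p := fun i (n : κ → ℤ) => n i ^ d i)
    fun i _ => Dg.pow (hid i) (d i)
  refine h.mono ?_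
  simp only [one_mul]
  exact (MvPolynomial.le_totalDegree hd).trans hP

/-! ### Powers with polynomial exponents -/

lemma Po.zpow {A G : Type} [AddCommGroup A] [Group G] {Φ : ℕ → Subgroup G} {t : G} :
    ∀ {r i : ℕ} {p : A → ℤ}, (∀ j ≤ i + r, t ∈ Φ j) → Dg r p → Po Φ i (fun n => t ^ p n) := by
  have key : ∀ (m : ℕ) {r i : ℕ} {p : A → ℤ}, (∀ j ≤ i + r, t ∈ Φ j) → Dg r p →
      Q Φ m i (fun n => t ^ p n) := by
    intro m
    induction m with
    | zero => exact fun ht hp n => (Φ _).zpow_mem (ht _ (Nat.le_add_right _ _)) _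
    | succ m ih =>
      intro r i p ht hp
      refine ⟨fun n => (Φ _).zpow_mem (ht _ (Nat.le_add_right _ _)) _, fun s => ?_⟩
      have e : FB.dd s (fun n => t ^ p n) = fun n => t ^ (p (n + s) - p n) := by
        funext n
        simp only [FB.dd]
        rw [zpow_sub]
      rw [e]
      cases r with
      | zero =>
        obtain ⟨c, hc⟩ := hp
        have e2 : (fun n : A => t ^ (p (n + s) - p n)) = fun _ => (1 : G) := by
          funext n
          rw [hc, hc, sub_self, zpow_zero]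
        rw [e2]
        exact Po.one (i + 1) m
      | succ r =>
        refine ih (r := r) (i := i + 1) (fun j hj => ht j (by omega)) (hp s)
  intro r i p ht hp m
  exact key m ht hp

end Pool.Agent.K1H28.FB
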